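import Mathlib
import Pool.Agent.Q82.QC.Stm

set_option autoImplicit false

open MeasureTheory Filter Topology Real Set

namespace Pool.Agent.Q82.QC

lemma mass_deriv {e : ℝ} (he : 0 < e) (r : ℝ) :
    HasDerivAt (fun r : ℝ => -8 * e ^ 4 * (e ^ 2 + 3 * r ^ 2) / (e ^ 2 + r ^ 2) ^ 3)
      (r ^ 3 * (96 * e ^ 4 / (e ^ 2 + r ^ 2) ^ 4)) r := by
  have hT : e ^ 2 + r ^ 2 ≠ 0 := by positivity
  have h1 : HasDerivAt (fun r : ℝ => -8 * e ^ 4 * (e ^ 2 + 3 * r ^ 2))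
      (-8 * e ^ 4 * (3 * (2 * r))) r := by
    have := ((((hasDerivAt_id r).pow 2).const_mul 3).const_add (e ^ 2)).const_mul (-8 * e ^ 4)
    simpa using this
  have h2 : HasDerivAt (fun r : ℝ => (e ^ 2 + r ^ 2) ^ 3)
      (3 * (e ^ 2 + r ^ 2) ^ 2 * (2 * r)) r := by
    have := (((hasDerivAt_id' r).fun_pow 2).const_add (e ^ 2)).fun_pow 3
    simpa using this
  have h3 := h1.fun_div h2 (pow_ne_zero 3 hT)
  have h4 : r ^ 3 * (96 * e ^ 4 / (e ^ 2 + r ^ 2) ^ 4) =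
      (-8 * e ^ 4 * (3 * (2 * r)) * (e ^ 2 + r ^ 2) ^ 3 -
        -8 * e ^ 4 * (e ^ 2 + 3 * r ^ 2) * (3 * (e ^ 2 + r ^ 2) ^ 2 * (2 * r))) /
          ((e ^ 2 + r ^ 2) ^ 3) ^ 2 := by
    field_simp
    ring
  rw [h4]
  exact h3

lemma mass_lim {e : ℝ} (he : 0 < e) :
    Tendsto (fun r : ℝ => -8 * e ^ 4 * (e ^ 2 + 3 * r ^ 2) / (e ^ 2 + r ^ 2) ^ 3) atTop (𝓝 0) := by
  have h1 : Tendsto (fun r : ℝ => 24 * e ^ 2 / r ^ 2) atTop (𝓝 0) :=
    tendsto_const_nhds.div_atTop (tendsto_pow_atTop two_ne_zero)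
  refine squeeze_zero_norm' ?_ h1
  filter_upwards [eventually_gt_atTop (0 : ℝ)] with r hr
  rw [Real.norm_eq_abs, abs_div, abs_mul, abs_mul, abs_of_pos (by positivity : 0 < e ^ 4),
    abs_of_pos (by positivity : 0 < e ^ 2 + 3 * r ^ 2),
    abs_of_pos (by positivity : 0 < (e ^ 2 + r ^ 2) ^ 3)]
  have : |(-8 : ℝ)| = 8 := by norm_num
  rw [this, div_le_div_iff₀ (by positivity) (by positivity)]
  have h2 : e ^ 2 + 3 * r ^ 2 ≤ 3 * (e ^ 2 + r ^ 2) := by nlinarith [sq_nonneg e]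
  have h3 : e ^ 2 * r ^ 2 ≤ (e ^ 2 + r ^ 2) ^ 2 := by nlinarith [sq_nonneg (e ^ 2), sq_nonneg (r ^ 2), mul_pos (pow_pos he 2) (pow_pos hr 2)]
  calc 8 * e ^ 4 * (e ^ 2 + 3 * r ^ 2) * r ^ 2
      ≤ 8 * e ^ 4 * (3 * (e ^ 2 + r ^ 2)) * r ^ 2 := by gcongr
    _ = 24 * e ^ 2 * ((e ^ 2 * r ^ 2) * (e ^ 2 + r ^ 2)) := by ring
    _ ≤ 24 * e ^ 2 * ((e ^ 2 + r ^ 2) ^ 2 * (e ^ 2 + r ^ 2)) := by gcongr
    _ = 24 * e ^ 2 * (e ^ 2 + r ^ 2) ^ 3 := by ring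

lemma mass_finrank : Module.finrank ℝ E = 4 := by simp [E]

lemma mass_ball : (volume : Measure E).real (Metric.ball 0 1) = π ^ 2 / 2 := by
  have h := InnerProductSpace.volume_ball_of_dim_even (E := E) (k := 2) (by rw [mass_finrank]) 0 1
  rw [Measure.real, h]
  simp [ENNReal.toReal_ofReal (by positivity : (0 : ℝ) ≤ π ^ 2 / 2), Nat.factorial]

theorem mass : S_MASS := by
  intro e he
  have hbd : bd e = fun z : E => (fun r : ℝ => 96 * e ^ 4 / (e ^ 2 + r ^ 2) ^ 4) ‖z‖ := rfl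
  have hpos : ∀ r ∈ Ioi (0 : ℝ), 0 ≤ r ^ 3 * (96 * e ^ 4 / (e ^ 2 + r ^ 2) ^ 4) := by
    intro r hr
    have : 0 < r := hr
    positivity
  constructor
  · rw [hbd]
    refine (integrable_fun_norm_addHaar (volume : Measure E)
      (f := fun r : ℝ => 96 * e ^ 4 / (e ^ 2 + r ^ 2) ^ 4)).2 ?_
    rw [mass_finrank]
    simpa only [smul_eq_mul] using integrableOn_Ioi_deriv_of_nonneg'
      (fun r _ => mass_deriv he r) hpos (mass_lim he)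
  · rw [hbd, integral_fun_norm_addHaar (volume : Measure E)
      (fun r : ℝ => 96 * e ^ 4 / (e ^ 2 + r ^ 2) ^ 4), mass_finrank, mass_ball]
    have h := integral_Ioi_of_hasDerivAt_of_nonneg' (fun r _ => mass_deriv he r) hpos (mass_lim he)
    simp only [smul_eq_mul, nsmul_eq_mul]
    have h' : ∫ y in Ioi (0 : ℝ), y ^ (4 - 1) * (96 * e ^ 4 / (e ^ 2 + y ^ 2) ^ 4) = 8 := by
      norm_num
      rw [h]
      have : e ≠ 0 := he.ne'
      field_simp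
      ring
    rw [h']
    push_cast
    ring

end Pool.Agent.Q82.QC
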