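import Pool.Agent.Q62.AnisoPoly

set_option autoImplicit false

/-!
# The regular polygon is not optimal
-/

namespace Pool.Agent.Q62.Aniso

open MeasureTheory Set Filter Topology Metric
open scoped ENNReal Real

/-- the area of the diamond -/
theorem volume_diamond :
    volume {x : EuclideanSpace ℝ (Fin 2) | |x 0| + |x 1| ≤ 1} = 2 := by
  have h1 := MeasureTheory.volume_sum_rpow_le (ι := Fin 2) (p := 1) le_rfl 1
  have hm : MeasurableSet {x : Fin 2 → ℝ | (∑ i, |x i| ^ (1 : ℝ)) ^ (1 / (1 : ℝ)) ≤ 1} := by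
    apply measurableSet_le _ measurable_const
    fun_prop
  have h2 := (EuclideanSpace.volume_preserving_symm_measurableEquiv_toLp (Fin 2)).measure_preimage
    hm.nullMeasurableSet
  rw [h1] at h2
  have h3 : (MeasurableEquiv.toLp 2 (Fin 2 → ℝ)).symm ⁻¹'
      {x : Fin 2 → ℝ | (∑ i, |x i| ^ (1 : ℝ)) ^ (1 / (1 : ℝ)) ≤ 1} =
      {x : EuclideanSpace ℝ (Fin 2) | |x 0| + |x 1| ≤ 1} := by
    ext x
    simp only [mem_preimage, mem_ofPred_eq, Real.rpow_one, div_one, Fin.sum_univ_two]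
    rfl
  rw [h3] at h2
  rw [h2]
  simp only [Fintype.card_fin, ENNReal.ofReal_one, one_pow, one_mul, div_one]
  have h4 : Real.Gamma (1 + 1) = 1 := by
    rw [Real.Gamma_add_one one_ne_zero, Real.Gamma_one, one_mul]
  have h5 : Real.Gamma (((2 : ℕ) : ℝ) + 1) = 2 := by
    have := Real.Gamma_nat_eq_factorial 2
    rw [this]; simp
  rw [h4, h5]
  norm_num

theorem polarSet_subset_diamond {P : Set (EuclideanSpace ℝ (Fin 2))}
    (h : {y : EuclideanSpace ℝ (Fin 2) | |y 0| < 1 ∧ |y 1| < 1} ⊆ P) :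
    polarSet P ⊆ {x | |x 0| + |x 1| ≤ 1} := by
  intro x hx
  change |x 0| + |x 1| ≤ 1
  have hlim : Tendsto (fun t : ℝ => t * (|x 0| + |x 1|)) (𝓝[<] 1) (𝓝 (|x 0| + |x 1|)) := by
    have h1 : ContinuousAt (fun t : ℝ => t * (|x 0| + |x 1|)) 1 := by fun_prop
    have h2 := h1.tendsto
    rw [one_mul] at h2
    exact h2.mono_left nhdsWithin_le_nhds
  refine le_of_tendsto hlim ?_
  filter_upwards [Ioo_mem_nhdsLT (show (0 : ℝ) < 1 by norm_num)] with t ht
  obtain ⟨a, ha, ha'⟩ : ∃ a : ℝ, |a| ≤ 1 ∧ x 0 * a = |x 0| := by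
    rcases le_total 0 (x 0) with h0 | h0
    · exact ⟨1, by norm_num, by rw [mul_one, abs_of_nonneg h0]⟩
    · exact ⟨-1, by norm_num, by rw [abs_of_nonpos h0]; ring⟩
  obtain ⟨b, hb, hb'⟩ : ∃ b : ℝ, |b| ≤ 1 ∧ x 1 * b = |x 1| := by
    rcases le_total 0 (x 1) with h0 | h0
    · exact ⟨1, by norm_num, by rw [mul_one, abs_of_nonneg h0]⟩
    · exact ⟨-1, by norm_num, by rw [abs_of_nonpos h0]; ring⟩
  have hmem : pt (t * a) (t * b) ∈ P := by
    apply h
    constructor
    · change |t * a| < 1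
      rw [abs_mul, abs_of_pos ht.1]
      nlinarith [abs_nonneg a, ht.1, ht.2]
    · change |t * b| < 1
      rw [abs_mul, abs_of_pos ht.1]
      nlinarith [abs_nonneg b, ht.1, ht.2]
  have h1 := hx _ hmem
  rw [inner_pt] at h1
  calc t * (|x 0| + |x 1|) = x 0 * (t * a) + x 1 * (t * b) := by rw [← ha', ← hb']; ring
    _ ≤ 1 := h1.le

/-- numerical upper bound -/
theorem J_upper {P : Set (EuclideanSpace ℝ (Fin 2))}
    (hnorm : ∀ v : EuclideanSpace ℝ (Fin 2), polarNorm P v ≤ (1 + 1 / 1000) * ∑ i, |v i|)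
    (hsq : {y : EuclideanSpace ℝ (Fin 2) | |y 0| < 1 ∧ |y 1| < 1} ⊆ P) :
    J (ball 0 1) P ≤ ENNReal.ofReal 3.5075 := by
  have hvol : volume (polarSet P) ^ (1 / ((2 : ℕ) : ℝ)) ≤ ENNReal.ofReal √2 := by
    have h1 : volume (polarSet P) ≤ 2 :=
      (measure_mono (polarSet_subset_diamond hsq)).trans volume_diamond.le
    refine (ENNReal.rpow_le_rpow h1 (by positivity)).trans ?_
    have h2 : (2 : ℝ≥0∞) = ENNReal.ofReal 2 := by norm_num
    rw [h2, ENNReal.ofReal_rpow_of_nonneg (by norm_num) (by positivity), Real.sqrt_eq_rpow]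
    norm_num
  have harea : ENNReal.ofReal 2.98065 ≤ volume (cutDisc (12 / 13)) := by
    refine le_trans (ENNReal.ofReal_le_ofReal ?_) (cutDisc_area (by norm_num))
    have h1 : (1 : ℝ) - 12 / 13 = 1 / 13 := by norm_num
    rw [h1]
    have h2 : √(2 * (1 / 13) : ℝ) ≤ 0.39224 := by
      apply Real.sqrt_le_iff.2
      norm_num
    have h3 := Real.pi_gt_d6
    nlinarith
  have hsub : cutDisc (12 / 13) ⊆ ball 0 1 := by
    rintro x ⟨-, -, h⟩
    rw [mem_ball_zero_iff]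
    have h1 : ‖x‖ ^ 2 = x 0 ^ 2 + x 1 ^ 2 := by
      rw [EuclideanSpace.norm_sq_eq, Fin.sum_univ_two]; simp
    rw [← h1] at h
    nlinarith [norm_nonneg x]
  have hpos : (0 : ℝ≥0∞) < ENNReal.ofReal 2.98065 := ENNReal.ofReal_pos.2 (by norm_num)
  have hch : cheeger P (ball 0 1) ≤
      ENNReal.ofReal ((1 + 1 / 1000) * (8 * (12 / 13))) / ENNReal.ofReal 2.98065 := by
    unfold cheeger
    refine (iInf_le _ (cutDisc (12 / 13))).trans ((iInf_le _
      (isOpen_cutDisc _).measurableSet).trans ((iInf_le _ hsub).trans ((iInf_le _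
        (hpos.trans_le harea).ne').trans ?_)))
    exact ENNReal.div_le_div (perimeter_cutDisc (by norm_num) (by norm_num) hnorm) harea
  unfold J
  refine (mul_le_mul' hch hvol).trans ?_
  rw [← ENNReal.ofReal_div_of_pos (by norm_num), ← ENNReal.ofReal_mul (by norm_num)]
  apply ENNReal.ofReal_le_ofReal
  have h1 : √(2 : ℝ) ≤ 1.41422 := by
    apply Real.sqrt_le_iff.2
    norm_num
  have h2 : (0 : ℝ) ≤ √2 := Real.sqrt_nonneg 2
  calc (1 + 1 / 1000) * (8 * (12 / 13)) / 2.98065 * √2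
      ≤ (1 + 1 / 1000) * (8 * (12 / 13)) / 2.98065 * 1.41422 :=
        mul_le_mul_of_nonneg_left h1 (by norm_num)
    _ ≤ 3.5075 := by norm_num

/-- numerical lower bound -/
theorem J_regular {m : ℕ} (hm : 11 ≤ m) :
    ENNReal.ofReal 3.5085 ≤ J (ball 0 1) (regularPolygon (2 * m)) := by
  have hpi := Real.pi_pos
  have hm0 : (11 : ℝ) ≤ m := by exact_mod_cast hm
  have hcast : ((2 * m : ℕ) : ℝ) = 2 * m := by push_cast; ring
  have hx : π / (2 * m : ℕ) ≤ 0.1428 := by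
    rw [hcast, div_le_iff₀ (by linarith)]
    have := Real.pi_lt_d4
    nlinarith
  have hx0 : 0 < π / (2 * m : ℕ) := by
    rw [hcast]; positivity
  have hcos : 0.989804 ≤ Real.cos (π / (2 * m : ℕ)) := by
    have h1 := Real.one_sub_sq_div_two_le_cos (x := π / (2 * m : ℕ))
    nlinarith
  have hcos0 : 0 < Real.cos (π / (2 * m : ℕ)) := by linarith
  refine le_trans (ENNReal.ofReal_le_ofReal ?_) (J_lower (regular_anisotropy (by omega))
    (ball_subset_regular _) hcos0 (regular_subset (by omega)))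
  have h2 : 1.77245 ≤ √π := by
    apply Real.le_sqrt_of_sq_le
    have := Real.pi_gt_d6
    norm_num
    linarith
  nlinarith

theorem regular_not_optimal {m : ℕ} (hm : 11 ≤ m) :
    ∃ P : Set (EuclideanSpace ℝ (Fin 2)), IsAnisotropy P ∧ IsPolygon (2 * m) P ∧
      J (ball 0 1) P < J (ball 0 1) (regularPolygon (2 * m)) := by
  obtain ⟨P, h1, h2, h3, h4⟩ := exists_near_square (m := m) (by omega)
    (δ := 1 / 1000) (by norm_num) (by norm_num)
  refine ⟨P, h1, h2, (J_upper h3 h4).trans_lt (lt_of_lt_of_le ?_ (J_regular hm))⟩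
  exact (ENNReal.ofReal_lt_ofReal_iff (by norm_num)).2 (by norm_num)

end Pool.Agent.Q62.Aniso
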