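import Pool.Agent.Q62.AnisoDefs

set_option autoImplicit false

namespace Pool.Agent.Q62.Aniso

open MeasureTheory Set Filter Topology Metric
open scoped ENNReal

variable {N : ℕ} {K Ω : Set (EuclideanSpace ℝ (Fin N))}

/-! ### The polar norm -/

theorem IsAnisotropy.zero_mem (hK : IsAnisotropy K) : (0 : EuclideanSpace ℝ (Fin N)) ∈ K := by
  obtain ⟨y, hy⟩ := hK.nonempty
  have h := hK.convex hy (hK.symm y hy) (a := 1 / 2) (b := 1 / 2) (by norm_num) (by norm_num)
    (by norm_num)
  simpa using h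

theorem IsAnisotropy.exists_ball (hK : IsAnisotropy K) : ∃ r > 0, ball 0 r ⊆ K :=
  Metric.isOpen_iff.1 hK.isOpen 0 hK.zero_mem

theorem IsAnisotropy.bddAbove (hK : IsAnisotropy K) (x : EuclideanSpace ℝ (Fin N)) :
    BddAbove ((fun y => inner ℝ x y) '' K) := by
  obtain ⟨C, hC⟩ := hK.bounded.exists_norm_le
  refine ⟨‖x‖ * C, ?_⟩
  rintro _ ⟨y, hy, rfl⟩
  exact (real_inner_le_norm x y).trans (mul_le_mul_of_nonneg_left (hC y hy) (norm_nonneg x))

theorem IsAnisotropy.inner_le (hK : IsAnisotropy K) (x : EuclideanSpace ℝ (Fin N))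
    {y : EuclideanSpace ℝ (Fin N)} (hy : y ∈ K) : inner ℝ x y ≤ polarNorm K x :=
  le_csSup (hK.bddAbove x) ⟨y, hy, rfl⟩

theorem IsAnisotropy.polarNorm_le (hK : IsAnisotropy K) {x : EuclideanSpace ℝ (Fin N)} {b : ℝ}
    (h : ∀ y ∈ K, inner ℝ x y ≤ b) : polarNorm K x ≤ b :=
  csSup_le (hK.nonempty.image _) (by rintro _ ⟨y, hy, rfl⟩; exact h y hy)

theorem IsAnisotropy.polarNorm_nonneg (hK : IsAnisotropy K) (x : EuclideanSpace ℝ (Fin N)) :
    0 ≤ polarNorm K x := by
  have := hK.inner_le x hK.zero_mem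
  rwa [inner_zero_right] at this

theorem IsAnisotropy.polarNorm_add (hK : IsAnisotropy K) (x x' : EuclideanSpace ℝ (Fin N)) :
    polarNorm K (x + x') ≤ polarNorm K x + polarNorm K x' := by
  refine hK.polarNorm_le fun y hy => ?_
  rw [inner_add_left]
  exact add_le_add (hK.inner_le x hy) (hK.inner_le x' hy)

theorem IsAnisotropy.polarNorm_smul (hK : IsAnisotropy K) {c : ℝ} (hc : 0 < c)
    (x : EuclideanSpace ℝ (Fin N)) : polarNorm K (c • x) = c * polarNorm K x := by
  apply le_antisymm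
  · refine hK.polarNorm_le fun y hy => ?_
    rw [real_inner_smul_left]
    exact mul_le_mul_of_nonneg_left (hK.inner_le x hy) hc.le
  · rw [← le_div_iff₀' hc]
    refine hK.polarNorm_le fun y hy => ?_
    rw [le_div_iff₀' hc, ← real_inner_smul_left]
    exact hK.inner_le _ hy

theorem IsAnisotropy.polarNorm_neg (hK : IsAnisotropy K) (x : EuclideanSpace ℝ (Fin N)) :
    polarNorm K (-x) = polarNorm K x := by
  have key : ∀ x, polarNorm K (-x) ≤ polarNorm K x := fun x => by
    refine hK.polarNorm_le fun y hy => ?_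
    rw [inner_neg_left, ← inner_neg_right]
    exact hK.inner_le x (hK.symm y hy)
  apply le_antisymm (key x)
  have := key (-x)
  rwa [neg_neg] at this

theorem polarSet_subset (hK : IsAnisotropy K) : polarSet K ⊆ {x | polarNorm K x ≤ 1} :=
  fun _ hx => hK.polarNorm_le fun y hy => (hx y hy).le

theorem subset_polarSet (hK : IsAnisotropy K) : {x | polarNorm K x ≤ 1} ⊆ polarSet K := by
  intro x hx y hy
  have hx' : polarNorm K x ≤ 1 := hx
  by_contra hcon
  push Not at hcon
  -- a slightly larger multiple of `y` is in `K`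
  have hcont : Tendsto (fun t : ℝ => (1 + t) • y) (𝓝[>] 0) (𝓝 y) := by
    have h1 : ContinuousAt (fun t : ℝ => (1 + t) • y) 0 := by fun_prop
    have h2 := h1.tendsto
    simp only [add_zero, one_smul] at h2
    exact h2.mono_left nhdsWithin_le_nhds
  have h3 := hcont.eventually (hK.isOpen.mem_nhds hy)
  obtain ⟨t, ht1, ht2⟩ := (h3.and self_mem_nhdsWithin).exists
  have ht2' : (0 : ℝ) < t := ht2
  have h4 := hK.inner_le x ht1
  rw [real_inner_smul_right] at h4
  nlinarith

theorem polarSet_eq (hK : IsAnisotropy K) : polarSet K = {x | polarNorm K x ≤ 1} :=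
  (polarSet_subset hK).antisymm (subset_polarSet hK)

theorem IsAnisotropy.polarNorm_le_mul {C : ℝ} (hK : IsAnisotropy K)
    (hC : ∀ y ∈ K, ‖y‖ ≤ C) (x : EuclideanSpace ℝ (Fin N)) :
    polarNorm K x ≤ C * ‖x‖ := by
  refine hK.polarNorm_le fun y hy => ?_
  rw [mul_comm]
  exact (real_inner_le_norm x y).trans (mul_le_mul_of_nonneg_left (hC y hy) (norm_nonneg x))

theorem volume_polarSet_lt_top (hK : IsAnisotropy K) : volume (polarSet K) < ∞ := by
  obtain ⟨r, hr, hball⟩ := hK.exists_ball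
  have hsub : polarSet K ⊆ closedBall 0 (2 / r) := by
    intro x hx
    rw [mem_closedBall_zero_iff]
    rcases eq_or_ne x 0 with h0 | h0
    · rw [h0, norm_zero]; positivity
    have hn : 0 < ‖x‖ := norm_pos_iff.2 h0
    have hy : (r / (2 * ‖x‖)) • x ∈ K := by
      apply hball
      rw [mem_ball_zero_iff, norm_smul, Real.norm_eq_abs, abs_of_pos (by positivity)]
      have : r / (2 * ‖x‖) * ‖x‖ = r / 2 := by field_simp
      rw [this]; linarith
    have h1 := hx _ hy
    rw [real_inner_smul_right, real_inner_self_eq_norm_sq] at h1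
    have h2 : r / (2 * ‖x‖) * ‖x‖ ^ 2 = r * ‖x‖ / 2 := by field_simp
    rw [h2] at h1
    rw [le_div_iff₀ hr]
    linarith
  exact (measure_mono hsub).trans_lt measure_closedBall_lt_top

theorem volume_polarSet_pos (hK : IsAnisotropy K) : 0 < volume (polarSet K) := by
  obtain ⟨C, hC⟩ := hK.bounded.exists_norm_le
  have hC' : ∀ y ∈ K, ‖y‖ ≤ max C 1 := fun y hy => (hC y hy).trans (le_max_left _ _)
  have h1 : (0 : ℝ) < max C 1 := lt_max_of_lt_right one_pos
  have hsub : ball (0 : EuclideanSpace ℝ (Fin N)) (1 / max C 1) ⊆ polarSet K := by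
    rw [polarSet_eq hK]
    intro x hx
    rw [mem_ball_zero_iff, lt_div_iff₀ h1] at hx
    have := hK.polarNorm_le_mul hC' x
    change polarNorm K x ≤ 1
    linarith
  exact (measure_ball_pos volume _ (by positivity)).trans_le (measure_mono hsub)

/-! ### The lower bound for the Cheeger constant -/

theorem ofReal_integral_le {α : Type*} [MeasurableSpace α] {μ : Measure α} (f : α → ℝ) :
    ENNReal.ofReal (∫ x, f x ∂μ) ≤ ∫⁻ x, ENNReal.ofReal (f x) ∂μ := by
  by_cases hf : Integrable f μ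
  · rw [integral_eq_lintegral_pos_part_sub_lintegral_neg_part hf]
    refine (ENNReal.ofReal_le_ofReal (sub_le_self _ ENNReal.toReal_nonneg)).trans ?_
    exact ENNReal.ofReal_toReal_le
  · rw [integral_undef hf, ENNReal.ofReal_zero]
    exact zero_le

/-- The test field. -/
theorem test_field (hK : IsAnisotropy K) {R : ℝ} (hR : 0 < R) (hΩ : Ω ⊆ ball 0 R)
    {y : EuclideanSpace ℝ (Fin N)} (hy : y ∈ K) {E : Set (EuclideanSpace ℝ (Fin N))}
    (hE : E ⊆ Ω) {σ : Measure (EuclideanSpace ℝ (Fin N))}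
    {ν : EuclideanSpace ℝ (Fin N) → EuclideanSpace ℝ (Fin N)} (hσ : IsNormalMeasure E σ ν)
    (hEm : MeasurableSet E) :
    ENNReal.ofReal (‖y‖ / (2 * R)) * volume E ≤ ∫⁻ x, ENNReal.ofReal (polarNorm K (ν x)) ∂σ := by
  rcases eq_or_ne y 0 with h0 | h0
  · rw [h0, norm_zero, zero_div, ENNReal.ofReal_zero, zero_mul]; exact zero_le
  have hn : 0 < ‖y‖ := norm_pos_iff.2 h0
  have hfin := hσ.finite
  let χ : ContDiffBump (0 : EuclideanSpace ℝ (Fin N)) := ⟨R, 2 * R, hR, by linarith⟩
  set s : EuclideanSpace ℝ (Fin N) → ℝ := fun x => χ x * (inner ℝ x y / (2 * R * ‖y‖)) with hs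
  have hsm : ContDiff ℝ 1 s := by
    have : ContDiff ℝ 1 (fun x : EuclideanSpace ℝ (Fin N) => χ x) := χ.contDiff
    exact this.mul ((contDiff_id.inner ℝ contDiff_const).div_const _)
  have hscomp : HasCompactSupport s := HasCompactSupport.mul_right χ.hasCompactSupport
  set ξ : EuclideanSpace ℝ (Fin N) → EuclideanSpace ℝ (Fin N) := fun x => s x • y with hξ
  have hξ1 : ContDiff ℝ 1 ξ := hsm.smul contDiff_const
  have hξ2 : HasCompactSupport ξ := HasCompactSupport.smul_right hscomp
  have hsle : ∀ x, |s x| ≤ 1 := by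
    intro x
    rw [hs]
    simp only
    rw [abs_mul, abs_of_nonneg χ.nonneg]
    by_cases hx : ‖x‖ < 2 * R
    · have h1 : |inner ℝ x y / (2 * R * ‖y‖)| ≤ 1 := by
        rw [abs_div, abs_of_pos (by positivity : 0 < 2 * R * ‖y‖), div_le_one (by positivity)]
        exact (abs_real_inner_le_norm x y).trans (mul_le_mul_of_nonneg_right hx.le hn.le)
      calc χ x * |inner ℝ x y / (2 * R * ‖y‖)| ≤ 1 * 1 :=
            mul_le_mul χ.le_one h1 (abs_nonneg _) zero_le_one
        _ = 1 := one_mul 1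
    · have h1 : χ x = 0 := by
        apply χ.zero_of_le_dist
        rw [dist_zero_right]
        exact not_lt.1 hx
      rw [h1, zero_mul]; exact zero_le_one
  have hdiv : ∀ x ∈ E, divergence ξ x = ‖y‖ / (2 * R) := by
    intro x hx
    have hxR : x ∈ ball (0 : EuclideanSpace ℝ (Fin N)) R := hΩ (hE hx)
    have hev : ξ =ᶠ[𝓝 x] fun z => (inner ℝ z y / (2 * R * ‖y‖)) • y := by
      filter_upwards [isOpen_ball.mem_nhds hxR] with z hz
      have : χ z = 1 := χ.one_of_mem_closedBall (ball_subset_closedBall hz)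
      rw [hξ]
      simp only [hs]
      rw [this, one_mul]
    unfold divergence
    rw [hev.fderiv_eq]
    have hfun : (fun z : EuclideanSpace ℝ (Fin N) => (inner ℝ z y / (2 * R * ‖y‖)) • y) =
        fun z => ((((2 * R * ‖y‖)⁻¹ : ℝ) • (innerSL ℝ y)).smulRight y) z := by
      ext1 z
      rw [ContinuousLinearMap.smulRight_apply]
      congr 1
      change _ = (2 * R * ‖y‖)⁻¹ * inner ℝ y z
      rw [real_inner_comm, div_eq_inv_mul]
    have hd : HasFDerivAt (fun z : EuclideanSpace ℝ (Fin N) => (inner ℝ z y / (2 * R * ‖y‖)) • y)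
        ((((2 * R * ‖y‖)⁻¹ : ℝ) • (innerSL ℝ y)).smulRight y) x := by
      rw [hfun]
      exact ContinuousLinearMap.hasFDerivAt _
    rw [hd.fderiv]
    have e1 : ∀ i, ((((((2 * R * ‖y‖)⁻¹ : ℝ) • (innerSL ℝ y)).smulRight y)
        (EuclideanSpace.single i (1 : ℝ)) : EuclideanSpace ℝ (Fin N)) i) =
        (2 * R * ‖y‖)⁻¹ * (y i * y i) := by
      intro i
      rw [ContinuousLinearMap.smulRight_apply, PiLp.smul_apply, smul_eq_mul]
      change (2 * R * ‖y‖)⁻¹ * inner ℝ y (EuclideanSpace.single i 1) * y i = _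
      rw [EuclideanSpace.inner_single_right]
      simp
      ring
    rw [Finset.sum_congr rfl fun i _ => e1 i, ← Finset.mul_sum]
    have e2 : ∑ i, y i * y i = ‖y‖ ^ 2 := by
      rw [EuclideanSpace.norm_sq_eq]
      exact Finset.sum_congr rfl fun i _ => by rw [Real.norm_eq_abs, sq_abs, sq]
    rw [e2]
    field_simp
  have hgg := hσ.gauss_green ξ hξ1 hξ2
  have hEfin : volume E < ∞ :=
    (measure_mono (hE.trans hΩ)).trans_lt measure_ball_lt_top
  have hleft : ∫ x in E, divergence ξ x = ‖y‖ / (2 * R) * (volume E).toReal := by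
    rw [setIntegral_congr_fun hEm hdiv, setIntegral_const, smul_eq_mul, mul_comm]
    rfl
  rw [hleft] at hgg
  -- the right side
  have hpt : ∀ x, inner ℝ (ξ x) (ν x) ≤ polarNorm K (ν x) := by
    intro x
    rw [hξ]
    simp only
    rw [real_inner_smul_left, real_inner_comm]
    have h1 : |inner ℝ (ν x) y| ≤ polarNorm K (ν x) := by
      rw [abs_le]
      constructor
      · have := hK.inner_le (ν x) (hK.symm y hy)
        rw [inner_neg_right] at this
        linarith
      · exact hK.inner_le (ν x) hy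
    calc s x * inner ℝ (ν x) y ≤ |s x * inner ℝ (ν x) y| := le_abs_self _
      _ = |s x| * |inner ℝ (ν x) y| := abs_mul _ _
      _ ≤ 1 * polarNorm K (ν x) := mul_le_mul (hsle x) h1 (abs_nonneg _) zero_le_one
      _ = _ := one_mul _
  have hright : ENNReal.ofReal (∫ x, inner ℝ (ξ x) (ν x) ∂σ) ≤
      ∫⁻ x, ENNReal.ofReal (polarNorm K (ν x)) ∂σ := by
    refine le_trans (ofReal_integral_le _) (lintegral_mono fun x => ENNReal.ofReal_le_ofReal (hpt x))
  rw [← hgg, ENNReal.ofReal_mul (by positivity), ENNReal.ofReal_toReal hEfin.ne] at hright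
  exact hright

end Pool.Agent.Q62.Aniso
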