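import Mathlib

set_option autoImplicit false

/-!
# Anisotropic perimeter and anisotropic Cheeger constant: definitions

The space is `EuclideanSpace ℝ (Fin N)`, with its Euclidean norm and its Lebesgue measure `volume`.
-/

namespace Pool.Agent.Q62.Aniso

open MeasureTheory Set Filter Topology
open scoped ENNReal

variable {N : ℕ}

/-- The class `𝒦_N`: nonempty open bounded convex sets which are symmetric about the origin. -/
structure IsAnisotropy (K : Set (EuclideanSpace ℝ (Fin N))) : Prop where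
  nonempty : K.Nonempty
  isOpen : IsOpen K
  bounded : Bornology.IsBounded K
  convex : Convex ℝ K
  symm : ∀ y ∈ K, -y ∈ K

/-- The polar norm `Φ_K°(x) = sup {x · y : y ∈ K}`. -/
noncomputable def polarNorm (K : Set (EuclideanSpace ℝ (Fin N)))
    (x : EuclideanSpace ℝ (Fin N)) : ℝ :=
  sSup ((fun y => inner ℝ x y) '' K)

/-- The polar set `K° = {x : x · y < 1 for all y ∈ K}`. -/
def polarSet (K : Set (EuclideanSpace ℝ (Fin N))) : Set (EuclideanSpace ℝ (Fin N)) :=
  {x | ∀ y ∈ K, inner ℝ x y < 1}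

/-- The divergence of a vector field. -/
noncomputable def divergence (ξ : EuclideanSpace ℝ (Fin N) → EuclideanSpace ℝ (Fin N))
    (x : EuclideanSpace ℝ (Fin N)) : ℝ :=
  ∑ i, (fderiv ℝ ξ x (EuclideanSpace.single i 1)) i

/-- `σ` is the surface measure of the reduced boundary of `E` and `ν` its outer unit normal: `σ` is
a finite Borel measure, `|ν| = 1` almost everywhere for `σ`, and the Gauss-Green formula
`∫_E div ξ = ∫ ξ · ν dσ` holds for every `C¹` field `ξ` with compact support. By the theorem of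
De Giorgi, the sets of finite perimeter are those for which there is such a pair, `σ` is then the
restriction of the Hausdorff measure `ℋ^{N-1}` to the reduced boundary `∂*E`, and `ν = ν_E` is the
measure theoretic outer unit normal, up to a set of `σ` measure zero. -/
structure IsNormalMeasure (E : Set (EuclideanSpace ℝ (Fin N)))
    (σ : Measure (EuclideanSpace ℝ (Fin N)))
    (ν : EuclideanSpace ℝ (Fin N) → EuclideanSpace ℝ (Fin N)) : Prop where
  finite : IsFiniteMeasure σ
  measurable : Measurable ν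
  unit : ∀ᵐ x ∂σ, ‖ν x‖ = 1
  gauss_green : ∀ ξ : EuclideanSpace ℝ (Fin N) → EuclideanSpace ℝ (Fin N), ContDiff ℝ 1 ξ →
    HasCompactSupport ξ → ∫ x in E, divergence ξ x = ∫ x, inner ℝ (ξ x) (ν x) ∂σ

/-- The anisotropic perimeter `P_K(E) = ∫_{∂*E} Φ_K°(ν_E) dℋ^{N-1}` (`∞` if `E` does not have finite
perimeter). -/
noncomputable def perimeter (K E : Set (EuclideanSpace ℝ (Fin N))) : ℝ≥0∞ :=
  ⨅ (σ : Measure (EuclideanSpace ℝ (Fin N)))
    (ν : EuclideanSpace ℝ (Fin N) → EuclideanSpace ℝ (Fin N)) (_ : IsNormalMeasure E σ ν),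
    ∫⁻ x, ENNReal.ofReal (polarNorm K (ν x)) ∂σ

/-- The `K`-Cheeger constant `h_K(Ω) = inf {P_K(E) / |E| : E ⊆ Ω Borel, |E| > 0}`. -/
noncomputable def cheeger (K Ω : Set (EuclideanSpace ℝ (Fin N))) : ℝ≥0∞ :=
  ⨅ (E : Set (EuclideanSpace ℝ (Fin N))) (_ : MeasurableSet E) (_ : E ⊆ Ω)
    (_ : volume E ≠ 0), perimeter K E / volume E

/-- The functional `𝒥_Ω[K] = h_K(Ω) |K°|^{1/N}`. -/
noncomputable def J (Ω K : Set (EuclideanSpace ℝ (Fin N))) : ℝ≥0∞ :=
  cheeger K Ω * volume (polarSet K) ^ (1 / (N : ℝ))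

end Pool.Agent.Q62.Aniso
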