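import Pool.Agent.Q62.AnisoGG

set_option autoImplicit false

/-!
# The anisotropic Cheeger functional on the disc: two estimates
-/

namespace Pool.Agent.Q62.Aniso

open MeasureTheory Set Filter Topology Metric
open scoped ENNReal

/-! ### A lower bound -/

theorem le_polarNorm {K : Set (EuclideanSpace ℝ (Fin 2))} (hK : IsAnisotropy K)
    (hB : ball 0 1 ⊆ K) (v : EuclideanSpace ℝ (Fin 2)) : ‖v‖ ≤ polarNorm K v := by
  rcases eq_or_ne v 0 with h0 | h0
  · rw [h0, norm_zero]; exact hK.polarNorm_nonneg 0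
  have hn : 0 < ‖v‖ := norm_pos_iff.2 h0
  have hlim : Tendsto (fun t : ℝ => t * ‖v‖) (𝓝[<] 1) (𝓝 (‖v‖)) := by
    have h1 : ContinuousAt (fun t : ℝ => t * ‖v‖) 1 := by fun_prop
    have h2 := h1.tendsto
    rw [one_mul] at h2
    exact h2.mono_left nhdsWithin_le_nhds
  refine le_of_tendsto hlim ?_
  filter_upwards [Ioo_mem_nhdsLT (show (0 : ℝ) < 1 by norm_num)] with t ht
  have hmem : (t / ‖v‖) • v ∈ K := by
    apply hB
    rw [mem_ball_zero_iff, norm_smul, Real.norm_eq_abs, abs_of_pos (div_pos ht.1 hn),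
      div_mul_cancel₀ _ hn.ne']
    exact ht.2
  have h1 := hK.inner_le v hmem
  rw [real_inner_smul_right, real_inner_self_eq_norm_sq] at h1
  have h2 : t / ‖v‖ * ‖v‖ ^ 2 = t * ‖v‖ := by field_simp
  rwa [h2] at h1

theorem two_le_cheeger {K : Set (EuclideanSpace ℝ (Fin 2))} (hK : IsAnisotropy K)
    (hB : ball 0 1 ⊆ K) : 2 ≤ cheeger K (ball 0 1) := by
  unfold cheeger
  refine le_iInf fun E => le_iInf fun hE => le_iInf fun hEΩ => le_iInf fun h0 => ?_
  have hfin : volume E ≠ ∞ := ((measure_mono hEΩ).trans_lt measure_ball_lt_top).ne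
  rw [ENNReal.le_div_iff_mul_le (Or.inl h0) (Or.inl hfin)]
  unfold perimeter
  refine le_iInf fun σ => le_iInf fun ν => le_iInf fun hσ => ?_
  have hfinσ := hσ.finite
  set P := ∫⁻ x, ENNReal.ofReal (polarNorm K (ν x)) ∂σ with hP
  have key : ∀ k : ℕ, 2 * volume E ≤ ENNReal.ofReal (1 + 1 / ((k : ℝ) + 1)) * P := by
    intro k
    set ε : ℝ := 1 / ((k : ℝ) + 1) with hε
    have hε0 : 0 < ε := by positivity
    let χ : ContDiffBump (0 : EuclideanSpace ℝ (Fin 2)) := ⟨1, 1 + ε, one_pos, by linarith⟩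
    set ξ : EuclideanSpace ℝ (Fin 2) → EuclideanSpace ℝ (Fin 2) := fun x => χ x • x with hξ
    have hξ1 : ContDiff ℝ 1 ξ := by
      have : ContDiff ℝ 1 (fun x : EuclideanSpace ℝ (Fin 2) => χ x) := χ.contDiff
      exact this.smul contDiff_id
    have hξ2 : HasCompactSupport ξ := HasCompactSupport.smul_right χ.hasCompactSupport
    have hnorm : ∀ x, ‖ξ x‖ ≤ 1 + ε := by
      intro x
      rw [hξ]
      simp only
      rw [norm_smul, Real.norm_eq_abs, abs_of_nonneg χ.nonneg]
      by_cases hx : ‖x‖ < 1 + ε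
      · calc χ x * ‖x‖ ≤ 1 * (1 + ε) := mul_le_mul χ.le_one hx.le (norm_nonneg _) zero_le_one
          _ = 1 + ε := one_mul _
      · have h1 : χ x = 0 := by
          apply χ.zero_of_le_dist
          rw [dist_zero_right]
          exact not_lt.1 hx
        rw [h1, zero_mul]; positivity
    have hdiv : ∀ x ∈ E, divergence ξ x = 2 := by
      intro x hx
      have hx1 : x ∈ ball (0 : EuclideanSpace ℝ (Fin 2)) 1 := hEΩ hx
      have hev : ξ =ᶠ[𝓝 x] fun z => z := by
        filter_upwards [isOpen_ball.mem_nhds hx1] with z hz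
        have : χ z = 1 := χ.one_of_mem_closedBall (ball_subset_closedBall hz)
        rw [hξ]
        simp only
        rw [this, one_smul]
      unfold divergence
      rw [hev.fderiv_eq, fderiv_fun_id, Fin.sum_univ_two]
      simp
      norm_num
    have hgg := hσ.gauss_green ξ hξ1 hξ2
    have hleft : ∫ x in E, divergence ξ x = 2 * (volume E).toReal := by
      rw [setIntegral_congr_fun hE hdiv, setIntegral_const, smul_eq_mul, mul_comm]
      rfl
    rw [hleft] at hgg
    have hright : ENNReal.ofReal (∫ x, inner ℝ (ξ x) (ν x) ∂σ) ≤ ENNReal.ofReal (1 + ε) * P := by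
      refine (ofReal_integral_le _).trans ?_
      rw [hP, ← lintegral_const_mul' _ _ ENNReal.ofReal_ne_top]
      refine lintegral_mono fun x => ?_
      rw [← ENNReal.ofReal_mul (by positivity)]
      apply ENNReal.ofReal_le_ofReal
      calc inner ℝ (ξ x) (ν x) ≤ ‖ξ x‖ * ‖ν x‖ := real_inner_le_norm _ _
        _ ≤ (1 + ε) * polarNorm K (ν x) :=
            mul_le_mul (hnorm x) (le_polarNorm hK hB _) (norm_nonneg _) (by positivity)
    rw [← hgg, ENNReal.ofReal_mul (by norm_num), ENNReal.ofReal_toReal hfin] at hright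
    simpa using hright
  have l1 : Tendsto (fun k : ℕ => ENNReal.ofReal (1 + 1 / ((k : ℝ) + 1)) * P) atTop (𝓝 (1 * P)) := by
    apply ENNReal.Tendsto.mul_const
    · rw [← ENNReal.ofReal_one]
      apply ENNReal.tendsto_ofReal
      simpa using (tendsto_one_div_add_atTop_nhds_zero_nat (𝕜 := ℝ)).const_add 1
    · exact Or.inl one_ne_zero
  rw [one_mul] at l1
  exact ge_of_tendsto' l1 key

theorem J_lower {K : Set (EuclideanSpace ℝ (Fin 2))} (hK : IsAnisotropy K)
    (hB : ball 0 1 ⊆ K) {r : ℝ} (hr : 0 < r) (hr2 : K ⊆ ball 0 (1 / r)) :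
    ENNReal.ofReal (2 * (√Real.pi * r)) ≤ J (ball 0 1) K := by
  have hsub : ball (0 : EuclideanSpace ℝ (Fin 2)) r ⊆ polarSet K := by
    intro x hx y hy
    rw [mem_ball_zero_iff] at hx
    have hy' := hr2 hy
    rw [mem_ball_zero_iff, lt_div_iff₀ hr] at hy'
    rcases eq_or_ne y 0 with h0 | h0
    · rw [h0, inner_zero_right]; exact one_pos
    have hn : 0 < ‖y‖ := norm_pos_iff.2 h0
    calc inner ℝ x y ≤ ‖x‖ * ‖y‖ := real_inner_le_norm _ _
      _ ≤ r * ‖y‖ := mul_le_mul_of_nonneg_right hx.le hn.le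
      _ < 1 := by linarith
  have hvol : ENNReal.ofReal (√Real.pi * r) ≤ volume (polarSet K) ^ (1 / ((2 : ℕ) : ℝ)) := by
    have h1 : volume (ball (0 : EuclideanSpace ℝ (Fin 2)) r) = ENNReal.ofReal ((√Real.pi * r) ^ 2) := by
      rw [EuclideanSpace.volume_ball_fin_two, mul_pow, Real.sq_sqrt Real.pi_pos.le, mul_comm,
        ENNReal.ofReal_mul Real.pi_pos.le, ENNReal.ofReal_pow hr.le]
    have h2 := ENNReal.rpow_le_rpow (measure_mono hsub : volume _ ≤ volume _)
      (show (0 : ℝ) ≤ 1 / ((2 : ℕ) : ℝ) by positivity)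
    rw [h1, ENNReal.ofReal_rpow_of_nonneg (by positivity) (by positivity)] at h2
    refine le_trans (le_of_eq ?_) h2
    rw [← Real.rpow_natCast, ← Real.rpow_mul (by positivity)]
    norm_num
  unfold J
  rw [ENNReal.ofReal_mul (by norm_num)]
  refine mul_le_mul' ?_ hvol
  simpa using two_le_cheeger hK hB

/-! ### The area of the disc cut by the square -/

theorem cap_bound {s : ℝ} (hs1 : s ≤ 1) :
    volume {p : ℝ × ℝ | s ≤ p.1 ∧ p.1 ^ 2 + p.2 ^ 2 < 1} ≤
      ENNReal.ofReal (4 / 3 * ((1 - s) * √(2 * (1 - s)))) := by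
  have hsub : {p : ℝ × ℝ | s ≤ p.1 ∧ p.1 ^ 2 + p.2 ^ 2 < 1} ⊆
      regionBetween (fun x => -√(2 * (1 - x))) (fun x => √(2 * (1 - x))) (Icc s 1) := by
    rintro ⟨x, y⟩ ⟨h1, h2⟩
    simp only at h1 h2
    have hx1 : x < 1 := by nlinarith [sq_nonneg y]
    have h3 : |y| < √(2 * (1 - x)) := by
      apply Real.lt_sqrt_of_sq_lt
      rw [sq_abs]
      nlinarith [sq_nonneg (1 - x)]
    exact ⟨⟨h1, hx1.le⟩, abs_lt.1 h3⟩
  have hcont : Continuous fun x : ℝ => √(2 * (1 - x)) := by fun_prop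
  refine (measure_mono hsub).trans ?_
  have hneg' : Continuous fun x : ℝ => -√(2 * (1 - x)) := hcont.neg
  rw [Measure.volume_eq_prod, volume_regionBetween_eq_integral
    (hneg'.continuousOn.integrableOn_compact isCompact_Icc)
    (hcont.continuousOn.integrableOn_compact isCompact_Icc) measurableSet_Icc
    (fun x _ => by
      have := Real.sqrt_nonneg (2 * (1 - x))
      linarith)]
  apply ENNReal.ofReal_le_ofReal
  apply le_of_eq
  rw [integral_Icc_eq_integral_Ioc, ← intervalIntegral.integral_of_le hs1]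
  have e1 : ∀ x : ℝ, ((fun x => √(2 * (1 - x))) - fun x => -√(2 * (1 - x))) x =
      2 * √2 * (fun t => √t) (1 - x) := by
    intro x
    simp only [Pi.sub_apply]
    rw [Real.sqrt_mul (by norm_num)]
    ring
  simp only [e1]
  rw [intervalIntegral.integral_const_mul, intervalIntegral.integral_comp_sub_left (fun t => √t) 1]
  rw [sub_self]
  have e2 : ∫ t in (0 : ℝ)..(1 - s), √t = 2 / 3 * ((1 - s) * √(1 - s)) := by
    have e3 : ∀ t : ℝ, √t = t ^ (1 / 2 : ℝ) := fun t => Real.sqrt_eq_rpow t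
    simp only [e3]
    rw [integral_rpow (Or.inl (by norm_num)), Real.zero_rpow (by norm_num), sub_zero]
    rcases eq_or_lt_of_le (sub_nonneg.2 hs1) with h | h
    · rw [← h, Real.zero_rpow (by norm_num)]; simp
    · rw [Real.rpow_add h, Real.rpow_one]; ring
  rw [e2, Real.sqrt_mul (by norm_num)]
  have h2 : √(2 : ℝ) * √2 = 2 := Real.mul_self_sqrt (by norm_num)
  ring

theorem cutDisc_area {s : ℝ} (hs1 : s ≤ 1) :
    ENNReal.ofReal (Real.pi - 16 / 3 * ((1 - s) * √(2 * (1 - s)))) ≤ volume (cutDisc s) := by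
  set c : ℝ := 4 / 3 * ((1 - s) * √(2 * (1 - s))) with hc
  have hc0 : 0 ≤ c := by
    have : 0 ≤ 1 - s := by linarith
    positivity
  set A : Set (ℝ × ℝ) := {p : ℝ × ℝ | s ≤ p.1 ∧ p.1 ^ 2 + p.2 ^ 2 < 1} with hA
  have hAm : MeasurableSet A :=
    (measurableSet_le measurable_const measurable_fst).inter
      (measurableSet_lt ((measurable_fst.pow_const 2).add (measurable_snd.pow_const 2))
        measurable_const)
  have hA1 : volume A ≤ ENNReal.ofReal c := cap_bound hs1
  have hswap : volume (Prod.swap ⁻¹' A) ≤ ENNReal.ofReal c :=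
    ((Measure.measurePreserving_swap (μ := (volume : Measure ℝ))
      (ν := (volume : Measure ℝ))).measure_preimage hAm.nullMeasurableSet).le.trans hA1
  have hneg : volume ((fun p : ℝ × ℝ => -p) ⁻¹' A) ≤ ENNReal.ofReal c :=
    ((Measure.measurePreserving_neg (volume : Measure (ℝ × ℝ))).measure_preimage
      hAm.nullMeasurableSet).le.trans hA1
  have hnegswap : volume ((fun p : ℝ × ℝ => -p) ⁻¹' (Prod.swap ⁻¹' A)) ≤ ENNReal.ofReal c :=
    ((Measure.measurePreserving_neg (volume : Measure (ℝ × ℝ))).measure_preimage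
      (measurable_swap hAm).nullMeasurableSet).le.trans hswap
  have hball : (fun p : ℝ × ℝ => pt p.1 p.2) ⁻¹' (ball 0 1) ⊆
      ((fun p : ℝ × ℝ => pt p.1 p.2) ⁻¹' cutDisc s) ∪ (A ∪ (Prod.swap ⁻¹' A ∪
        ((fun p : ℝ × ℝ => -p) ⁻¹' A ∪ (fun p : ℝ × ℝ => -p) ⁻¹' (Prod.swap ⁻¹' A)))) := by
    rintro ⟨x, y⟩ hp
    have h1 : x ^ 2 + y ^ 2 < 1 := by
      have h2 : ‖pt x y‖ < 1 := by simpa using hp
      have h3 : ‖pt x y‖ ^ 2 = x ^ 2 + y ^ 2 := by
        rw [EuclideanSpace.norm_sq_eq, Fin.sum_univ_two]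
        simp
      rw [← h3]
      nlinarith [norm_nonneg (pt x y)]
    by_cases hx : |x| < s
    · by_cases hy : |y| < s
      · exact Or.inl ⟨hx, hy, h1⟩
      · rcases le_abs.1 (not_lt.1 hy) with h | h
        · exact Or.inr (Or.inr (Or.inl ⟨h, by show y ^ 2 + x ^ 2 < 1; linarith⟩))
        · exact Or.inr (Or.inr (Or.inr (Or.inr ⟨h, by
            show (-y) ^ 2 + (-x) ^ 2 < 1
            nlinarith⟩)))
    · rcases le_abs.1 (not_lt.1 hx) with h | h
      · exact Or.inr (Or.inl ⟨h, h1⟩)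
      · exact Or.inr (Or.inr (Or.inr (Or.inl ⟨h, by
          show (-x) ^ 2 + (-y) ^ 2 < 1
          nlinarith⟩)))
  have hvolball : volume ((fun p : ℝ × ℝ => pt p.1 p.2) ⁻¹' (ball 0 1)) = ENNReal.ofReal Real.pi := by
    rw [← volume_pt measurableSet_ball, EuclideanSpace.volume_ball_fin_two]
    rw [ENNReal.ofReal_one, one_pow, one_mul]
  have hle := (measure_mono hball : volume _ ≤ volume _)
  rw [hvolball] at hle
  have h4 : ENNReal.ofReal Real.pi ≤ volume (cutDisc s) + ENNReal.ofReal (4 * c) := by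
    refine hle.trans ((measure_union_le _ _).trans ?_)
    rw [← volume_pt (isOpen_cutDisc s).measurableSet]
    refine add_le_add le_rfl ?_
    refine (measure_union_le _ _).trans ?_
    refine (add_le_add hA1 ((measure_union_le _ _).trans (add_le_add hswap
      ((measure_union_le _ _).trans (add_le_add hneg hnegswap))))).trans ?_
    rw [← ENNReal.ofReal_add hc0 hc0, ← ENNReal.ofReal_add hc0 (by positivity),
      ← ENNReal.ofReal_add hc0 (by positivity)]
    apply ENNReal.ofReal_le_ofReal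
    linarith
  have h5 : Real.pi - 16 / 3 * ((1 - s) * √(2 * (1 - s))) = Real.pi - 4 * c := by rw [hc]; ring
  rw [h5, ENNReal.ofReal_sub _ (by positivity)]
  exact tsub_le_iff_right.2 h4

end Pool.Agent.Q62.Aniso
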