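import Pool.Agent.Q62.AnisoDefs

set_option autoImplicit false

/-!
# Polar decomposition of a vector measure given by its components
-/

namespace Pool.Agent.Q62.Aniso

open MeasureTheory Set Filter Topology Metric
open scoped ENNReal

variable {N : ℕ}

theorem polar_decomposition (a b : Fin N → Measure (EuclideanSpace ℝ (Fin N)))
    [∀ i, IsFiniteMeasure (a i)] [∀ i, IsFiniteMeasure (b i)] :
    ∃ (σ : Measure (EuclideanSpace ℝ (Fin N)))
      (ν : EuclideanSpace ℝ (Fin N) → EuclideanSpace ℝ (Fin N)), IsFiniteMeasure σ ∧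
      Measurable ν ∧ (∀ᵐ x ∂σ, ‖ν x‖ = 1) ∧
      (∀ ξ : EuclideanSpace ℝ (Fin N) → EuclideanSpace ℝ (Fin N), Continuous ξ →
        HasCompactSupport ξ →
        ∑ i, (∫ x, ξ x i ∂(a i) - ∫ x, ξ x i ∂(b i)) = ∫ x, inner ℝ (ξ x) (ν x) ∂σ) ∧
      ∫⁻ x, ENNReal.ofReal (∑ i, |ν x i|) ∂σ ≤ ∑ i, (a i univ + b i univ) := by
  set lam : Measure (EuclideanSpace ℝ (Fin N)) := ∑ i, (a i + b i) with hlam
  have hfl : IsFiniteMeasure lam := by rw [hlam]; infer_instance
  have ha : ∀ i, a i ≪ lam := by
    intro i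
    apply Measure.absolutelyContinuous_of_le
    calc a i ≤ a i + b i := Measure.le_add_right le_rfl
      _ ≤ lam := Finset.single_le_sum (f := fun i => a i + b i) (fun _ _ => Measure.zero_le _)
          (Finset.mem_univ i)
  have hb : ∀ i, b i ≪ lam := by
    intro i
    apply Measure.absolutelyContinuous_of_le
    calc b i ≤ a i + b i := Measure.le_add_left le_rfl
      _ ≤ lam := Finset.single_le_sum (f := fun i => a i + b i) (fun _ _ => Measure.zero_le _)
          (Finset.mem_univ i)
  have hLa : ∀ i, (a i).HaveLebesgueDecomposition lam := fun i =>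
    Measure.haveLebesgueDecomposition_of_sigmaFinite _ _
  have hLb : ∀ i, (b i).HaveLebesgueDecomposition lam := fun i =>
    Measure.haveLebesgueDecomposition_of_sigmaFinite _ _
  set p : Fin N → EuclideanSpace ℝ (Fin N) → ℝ := fun i x => ((a i).rnDeriv lam x).toReal with hp
  set q : Fin N → EuclideanSpace ℝ (Fin N) → ℝ := fun i x => ((b i).rnDeriv lam x).toReal with hq
  have hpm : ∀ i, Measurable (p i) := fun i => (Measure.measurable_rnDeriv _ _).ennreal_toReal
  have hqm : ∀ i, Measurable (q i) := fun i => (Measure.measurable_rnDeriv _ _).ennreal_toReal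
  have hp0 : ∀ i x, 0 ≤ p i x := fun i x => ENNReal.toReal_nonneg
  have hq0 : ∀ i x, 0 ≤ q i x := fun i x => ENNReal.toReal_nonneg
  have hpi : ∀ i, Integrable (p i) lam := fun i => Measure.integrable_toReal_rnDeriv
  have hqi : ∀ i, Integrable (q i) lam := fun i => Measure.integrable_toReal_rnDeriv
  set f : EuclideanSpace ℝ (Fin N) → EuclideanSpace ℝ (Fin N) :=
    fun x => WithLp.toLp 2 (fun i => p i x - q i x) with hf
  have hfi : ∀ x i, f x i = p i x - q i x := fun x i => rfl
  have hfm : Measurable f := by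
    apply (PiLp.continuous_toLp 2 _).measurable.comp
    exact measurable_pi_lambda _ fun i => (hpm i).sub (hqm i)
  have hsum_abs : ∀ x, ∑ i, |f x i| ≤ ∑ i, (p i x + q i x) := by
    intro x
    refine Finset.sum_le_sum fun i _ => ?_
    rw [hfi]
    exact (abs_sub _ _).trans (by rw [abs_of_nonneg (hp0 i x), abs_of_nonneg (hq0 i x)])
  have hnorm_le : ∀ x, ‖f x‖ ≤ ∑ i, |f x i| := by
    intro x
    have h1 : f x = ∑ i, EuclideanSpace.single i (f x i) := by
      conv_lhs => rw [← (EuclideanSpace.basisFun (Fin N) ℝ).sum_repr (f x)]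
      refine Finset.sum_congr rfl fun i _ => ?_
      rw [EuclideanSpace.basisFun_repr, EuclideanSpace.basisFun_apply]
      ext j
      simp
    calc ‖f x‖ = ‖∑ i, EuclideanSpace.single i (f x i)‖ := by rw [← h1]
      _ ≤ ∑ i, ‖EuclideanSpace.single i (f x i)‖ := norm_sum_le _ _
      _ = _ := Finset.sum_congr rfl fun i _ => by rw [PiLp.norm_single, Real.norm_eq_abs]
  have hpl : ∀ i, ∫⁻ x, ENNReal.ofReal (p i x) ∂lam = a i univ := by
    intro i
    rw [← ofReal_integral_eq_lintegral_ofReal (hpi i) (Eventually.of_forall (hp0 i))]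
    have h1 := integral_toReal_rnDeriv_mul (ha i) (f := fun _ => (1 : ℝ))
    simp only [mul_one] at h1
    rw [h1, integral_const, smul_eq_mul, mul_one]
    exact ofReal_measureReal
  have hql : ∀ i, ∫⁻ x, ENNReal.ofReal (q i x) ∂lam = b i univ := by
    intro i
    rw [← ofReal_integral_eq_lintegral_ofReal (hqi i) (Eventually.of_forall (hq0 i))]
    have h1 := integral_toReal_rnDeriv_mul (hb i) (f := fun _ => (1 : ℝ))
    simp only [mul_one] at h1
    rw [h1, integral_const, smul_eq_mul, mul_one]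
    exact ofReal_measureReal
  have htot : ∫⁻ x, ENNReal.ofReal (∑ i, |f x i|) ∂lam ≤ ∑ i, (a i univ + b i univ) := by
    calc ∫⁻ x, ENNReal.ofReal (∑ i, |f x i|) ∂lam
        ≤ ∫⁻ x, ∑ i, (ENNReal.ofReal (p i x) + ENNReal.ofReal (q i x)) ∂lam := by
          refine lintegral_mono fun x => ?_
          refine (ENNReal.ofReal_le_ofReal (hsum_abs x)).trans ?_
          rw [ENNReal.ofReal_sum_of_nonneg fun i _ => add_nonneg (hp0 i x) (hq0 i x)]
          exact Finset.sum_le_sum fun i _ => ENNReal.ofReal_add_le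
      _ = ∑ i, (a i univ + b i univ) := by
          have hm : ∀ i ∈ Finset.univ, Measurable fun x => ENNReal.ofReal (p i x) +
              ENNReal.ofReal (q i x) := fun i _ =>
            (hpm i).ennreal_ofReal.add (hqm i).ennreal_ofReal
          rw [lintegral_finsetSum _ hm]
          refine Finset.sum_congr rfl fun i _ => ?_
          rw [lintegral_add_left (hpm i).ennreal_ofReal, hpl, hql]
  set σ : Measure (EuclideanSpace ℝ (Fin N)) := lam.withDensity fun x => ENNReal.ofReal ‖f x‖
    with hσ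
  have hnm : Measurable fun x => ENNReal.ofReal ‖f x‖ := hfm.norm.ennreal_ofReal
  have hnlt : ∀ᵐ x ∂lam, ENNReal.ofReal ‖f x‖ < ∞ := Eventually.of_forall fun x => ENNReal.ofReal_lt_top
  have hσfin : IsFiniteMeasure σ := by
    refine isFiniteMeasure_withDensity ?_
    have h1 : ∫⁻ x, ENNReal.ofReal ‖f x‖ ∂lam ≤ ∑ i, (a i univ + b i univ) :=
      (lintegral_mono fun x => ENNReal.ofReal_le_ofReal (hnorm_le x)).trans htot
    refine (h1.trans_lt ?_).ne
    exact ENNReal.sum_lt_top.2 fun i _ => ENNReal.add_lt_top.2 ⟨measure_lt_top _ _, measure_lt_top _ _⟩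
  set ν : EuclideanSpace ℝ (Fin N) → EuclideanSpace ℝ (Fin N) := fun x => ‖f x‖⁻¹ • f x with hν
  refine ⟨σ, ν, hσfin, hfm.norm.inv.smul hfm, ?_, ?_, ?_⟩
  · rw [hσ, ae_withDensity_iff hnm]
    refine Eventually.of_forall fun x hx => ?_
    have h1 : ‖f x‖ ≠ 0 := fun h => hx (by rw [h, ENNReal.ofReal_zero])
    rw [hν]
    simp only
    rw [norm_smul, norm_inv, norm_norm, inv_mul_cancel₀ h1]
  · intro ξ hξ hξc
    rw [hσ, integral_withDensity_eq_integral_toReal_smul hnm hnlt]
    have h1 : ∀ x, (ENNReal.ofReal ‖f x‖).toReal • inner ℝ (ξ x) (ν x) =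
        ∑ i, (p i x * ξ x i - q i x * ξ x i) := by
      intro x
      rw [ENNReal.toReal_ofReal (norm_nonneg _), smul_eq_mul, hν]
      simp only
      rw [real_inner_smul_right]
      have h2 : inner ℝ (ξ x) (f x) = ∑ i, (p i x * ξ x i - q i x * ξ x i) := by
        rw [PiLp.inner_apply]
        refine Finset.sum_congr rfl fun i _ => ?_
        rw [hfi]
        simp
        ring
      rcases eq_or_ne (‖f x‖) 0 with h0 | h0
      · have h3 : f x = 0 := norm_eq_zero.1 h0
        rw [← h2, h0, zero_mul, h3, inner_zero_right]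
      · rw [← mul_assoc, mul_inv_cancel₀ h0, one_mul, h2]
    rw [integral_congr_ae (Eventually.of_forall h1)]
    obtain ⟨C, hC⟩ := hξ.bounded_above_of_compact_support hξc
    have hξi : ∀ i x, ‖ξ x i‖ ≤ C := fun i x => (PiLp.norm_apply_le (ξ x) i).trans (hC x)
    have hξm : ∀ i, AEStronglyMeasurable (fun x => ξ x i) lam := fun i =>
      ((EuclideanSpace.proj (𝕜 := ℝ) i).continuous.comp hξ).aestronglyMeasurable
    have hpξ : ∀ i, Integrable (fun x => p i x * ξ x i) lam := fun i =>
      (hpi i).mul_bdd (c := C) (hξm i) (Eventually.of_forall (hξi i))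
    have hqξ : ∀ i, Integrable (fun x => q i x * ξ x i) lam := fun i =>
      (hqi i).mul_bdd (c := C) (hξm i) (Eventually.of_forall (hξi i))
    have hpq : ∀ i ∈ Finset.univ, Integrable (fun x => p i x * ξ x i - q i x * ξ x i) lam :=
      fun i _ => (hpξ i).sub (hqξ i)
    rw [integral_finsetSum _ hpq]
    refine Finset.sum_congr rfl fun i _ => ?_
    rw [integral_sub (hpξ i) (hqξ i)]
    congr 1
    · exact (integral_toReal_rnDeriv_mul (ha i)).symm
    · exact (integral_toReal_rnDeriv_mul (hb i)).symm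
  · rw [hσ, lintegral_withDensity_eq_lintegral_mul₀ hnm.aemeasurable]
    · refine le_trans (lintegral_mono fun x => ?_) htot
      simp only [Pi.mul_apply]
      rw [← ENNReal.ofReal_mul (norm_nonneg _)]
      apply ENNReal.ofReal_le_ofReal
      rw [Finset.mul_sum]
      refine Finset.sum_le_sum fun i _ => ?_
      rw [hν]
      simp only
      rw [PiLp.smul_apply, smul_eq_mul, abs_mul, abs_inv, abs_norm, ← mul_assoc]
      rcases eq_or_ne (‖f x‖) 0 with h0 | h0
      · rw [h0, zero_mul, zero_mul]; exact abs_nonneg _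
      · rw [mul_inv_cancel₀ h0, one_mul]
    · apply Measurable.aemeasurable
      apply Measurable.ennreal_ofReal
      apply Finset.measurable_sum
      intro i _
      have h1 : Measurable ν := hfm.norm.inv.smul hfm
      exact ((EuclideanSpace.proj (𝕜 := ℝ) i).continuous.measurable.comp h1).abs

end Pool.Agent.Q62.Aniso
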