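import Pool.Agent.Q62.AnisoMain
import Pool.Agent.Q62.AnisoPolar

set_option autoImplicit false

/-!
# The Gauss-Green formula for the intersection of the disc and a square
-/

namespace Pool.Agent.Q62.Aniso

open MeasureTheory Set Filter Topology Metric
open scoped ENNReal

/-- points of the plane -/
def pt (x y : ℝ) : EuclideanSpace ℝ (Fin 2) := WithLp.toLp 2 ![x, y]

@[simp] theorem pt_zero (x y : ℝ) : pt x y 0 = x := rfl
@[simp] theorem pt_one (x y : ℝ) : pt x y 1 = y := rfl

theorem pt_eta (z : EuclideanSpace ℝ (Fin 2)) : pt (z 0) (z 1) = z := by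
  ext i; fin_cases i <;> rfl

theorem continuous_pt : Continuous fun p : ℝ × ℝ => pt p.1 p.2 := by
  unfold pt
  apply (PiLp.continuous_toLp 2 _).comp
  exact continuous_pi fun i => by fin_cases i <;> simp <;> fun_prop

theorem mp_pt : MeasurePreserving (fun p : ℝ × ℝ => pt p.1 p.2) volume volume := by
  have h1 := (volume_preserving_finTwoArrow ℝ).symm
  have h2 := (EuclideanSpace.volume_preserving_symm_measurableEquiv_toLp (Fin 2)).symm
  have h3 := h2.comp h1
  have h4 : (fun p : ℝ × ℝ => pt p.1 p.2) =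
      (MeasurableEquiv.toLp 2 (Fin 2 → ℝ)).symm.symm ∘ MeasurableEquiv.finTwoArrow.symm := by
    funext p
    unfold pt
    congr 1
  rw [h4]
  exact h3

theorem setIntegral_pt (E : Set (EuclideanSpace ℝ (Fin 2))) (F : EuclideanSpace ℝ (Fin 2) → ℝ) :
    ∫ x in E, F x = ∫ p in (fun p : ℝ × ℝ => pt p.1 p.2) ⁻¹' E, F (pt p.1 p.2) := by
  have hemb : MeasurableEmbedding fun p : ℝ × ℝ => pt p.1 p.2 := by
    have h1 := (MeasurableEquiv.finTwoArrow (α := ℝ)).symm.measurableEmbedding
    have h2 := (MeasurableEquiv.toLp 2 (Fin 2 → ℝ)).measurableEmbedding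
    exact h2.comp h1
  exact (mp_pt.setIntegral_preimage_emb hemb F E).symm

theorem volume_pt {E : Set (EuclideanSpace ℝ (Fin 2))} (hE : MeasurableSet E) :
    volume E = volume ((fun p : ℝ × ℝ => pt p.1 p.2) ⁻¹' E) :=
  (mp_pt.measure_preimage hE.nullMeasurableSet).symm

/-- the half-length of the slices -/
noncomputable def gg (s t : ℝ) : ℝ := min s (√(1 - t ^ 2))

theorem continuous_gg (s : ℝ) : Continuous (gg s) := by
  unfold gg
  fun_prop

/-- the disc cut by a square -/
def cutDisc (s : ℝ) : Set (EuclideanSpace ℝ (Fin 2)) :=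
  {z | |z 0| < s ∧ |z 1| < s ∧ z 0 ^ 2 + z 1 ^ 2 < 1}

theorem isOpen_cutDisc (s : ℝ) : IsOpen (cutDisc s) := by
  have c : ∀ i, Continuous fun z : EuclideanSpace ℝ (Fin 2) => z i := fun i =>
    (EuclideanSpace.proj (𝕜 := ℝ) i).continuous
  exact (isOpen_lt (c 0).abs continuous_const).inter
    ((isOpen_lt (c 1).abs continuous_const).inter
      (isOpen_lt (((c 0).pow 2).add ((c 1).pow 2)) continuous_const))

theorem mem_cutDisc_iff {s x y : ℝ} :
    pt x y ∈ cutDisc s ↔ |y| < s ∧ |x| < gg s y := by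
  unfold cutDisc gg
  simp only [mem_ofPred_eq, pt_zero, pt_one, lt_min_iff]
  constructor
  · rintro ⟨h1, h2, h3⟩
    refine ⟨h2, h1, Real.lt_sqrt_of_sq_lt ?_⟩
    rw [sq_abs]; linarith
  · rintro ⟨h1, h2, h3⟩
    refine ⟨h2, h1, ?_⟩
    have h4 := Real.lt_sqrt (abs_nonneg x) |>.1 h3
    rw [sq_abs] at h4; linarith

theorem mem_cutDisc_iff' {s x y : ℝ} :
    pt x y ∈ cutDisc s ↔ |x| < s ∧ |y| < gg s x := by
  have h : pt x y ∈ cutDisc s ↔ pt y x ∈ cutDisc s := by
    unfold cutDisc
    simp only [mem_ofPred_eq, pt_zero, pt_one]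
    rw [add_comm (x ^ 2)]
    tauto
  rw [h, mem_cutDisc_iff]

/-- the slice formula -/
theorem slice {s : ℝ} {w : ℝ → ℝ → ℝ} {S : Set (ℝ × ℝ)}
    (hS : ∀ x y, (x, y) ∈ S ↔ |y| < s ∧ |x| < gg s y) (hSm : MeasurableSet S)
    (hb : Bornology.IsBounded S)
    {w' : ℝ → ℝ → ℝ} (hd : ∀ x y, HasDerivAt (fun x => w x y) (w' x y) x)
    (hc : Continuous fun p : ℝ × ℝ => w' p.1 p.2) :
    ∫ p in S, w' p.1 p.2 = ∫ y in Ioo (-s) s, (w (gg s y) y - w (-gg s y) y) := by
  have hint : IntegrableOn (fun p : ℝ × ℝ => w' p.1 p.2) S := by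
    obtain ⟨R, hR⟩ := hb.subset_closedBall 0
    exact (hc.continuousOn.integrableOn_compact (isCompact_closedBall 0 R)).mono_set hR
  rw [← integral_indicator hSm]
  have hint' : Integrable (S.indicator fun p : ℝ × ℝ => w' p.1 p.2) :=
    (integrable_indicator_iff hSm).2 hint
  have h1 : ∫ p, S.indicator (fun p : ℝ × ℝ => w' p.1 p.2) p =
      ∫ y, ∫ x, S.indicator (fun p : ℝ × ℝ => w' p.1 p.2) (x, y) :=
    integral_prod_symm _ hint'
  rw [h1, ← integral_indicator measurableSet_Ioo]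
  congr 1
  ext y
  by_cases hy : y ∈ Ioo (-s) s
  · rw [indicator_of_mem hy]
    have hy' : |y| < s := abs_lt.2 hy
    rcases le_or_gt (gg s y) 0 with hg | hg
    · -- then `gg s y = 0`
      have hs : 0 < s := (abs_nonneg y).trans_lt hy'
      have hg0 : gg s y = 0 := le_antisymm hg (le_min hs.le (Real.sqrt_nonneg _))
      rw [hg0, neg_zero, sub_self]
      have : ∀ x, S.indicator (fun p : ℝ × ℝ => w' p.1 p.2) (x, y) = 0 := by
        intro x
        apply indicator_of_notMem
        rw [hS, hg0]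
        exact fun h => absurd h.2 (not_lt.2 (abs_nonneg x))
      simp [this]
    · have h2 : ∀ x, S.indicator (fun p : ℝ × ℝ => w' p.1 p.2) (x, y) =
          (Ioo (-gg s y) (gg s y)).indicator (fun x => w' x y) x := by
        intro x
        by_cases hx : x ∈ Ioo (-gg s y) (gg s y)
        · rw [indicator_of_mem hx, indicator_of_mem]
          rw [hS]
          exact ⟨hy', abs_lt.2 hx⟩
        · rw [indicator_of_notMem hx, indicator_of_notMem]
          rw [hS]
          exact fun h => hx (abs_lt.1 h.2)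
      rw [integral_congr_ae (Eventually.of_forall h2), integral_indicator measurableSet_Ioo,
        ← integral_Ioc_eq_integral_Ioo, ← intervalIntegral.integral_of_le (by linarith)]
      have hcy : Continuous fun x => w' x y := hc.comp (by fun_prop : Continuous fun x : ℝ => (x, y))
      exact intervalIntegral.integral_eq_sub_of_hasDerivAt (fun x _ => hd x y)
        (hcy.intervalIntegrable _ _)
  · rw [indicator_of_notMem hy]
    have : ∀ x, S.indicator (fun p : ℝ × ℝ => w' p.1 p.2) (x, y) = 0 := by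
      intro x
      apply indicator_of_notMem
      rw [hS]
      exact fun h => hy (abs_lt.1 h.1)
    simp [this]

theorem slice' {s : ℝ} {w : ℝ → ℝ → ℝ} {S : Set (ℝ × ℝ)}
    (hS : ∀ x y, (x, y) ∈ S ↔ |x| < s ∧ |y| < gg s x) (hSm : MeasurableSet S)
    (hb : Bornology.IsBounded S)
    {w' : ℝ → ℝ → ℝ} (hd : ∀ x y, HasDerivAt (fun y => w x y) (w' x y) y)
    (hc : Continuous fun p : ℝ × ℝ => w' p.1 p.2) :
    ∫ p in S, w' p.1 p.2 = ∫ x in Ioo (-s) s, (w x (gg s x) - w x (-gg s x)) := by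
  have h1 : ∫ p in S, w' p.1 p.2 = ∫ p in Prod.swap ⁻¹' S, w' p.2 p.1 :=
    (Measure.measurePreserving_swap (μ := (volume : Measure ℝ)) (ν := (volume : Measure ℝ))
      |>.setIntegral_preimage_emb MeasurableEquiv.prodComm.measurableEmbedding
        (fun p : ℝ × ℝ => w' p.1 p.2) S).symm
  rw [h1]
  have hb' : Bornology.IsBounded (Prod.swap ⁻¹' S : Set (ℝ × ℝ)) := by
    obtain ⟨R, hR⟩ := (Metric.isBounded_iff_subset_closedBall 0).1 hb
    refine (Metric.isBounded_iff_subset_closedBall 0).2 ⟨R, fun p hp => ?_⟩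
    have h2 := hR hp
    rw [mem_closedBall_zero_iff] at h2 ⊢
    rw [Prod.norm_def] at h2 ⊢
    rwa [max_comm] at h2
  exact slice (w := fun x y => w y x) (w' := fun x y => w' y x) (fun x y => hS y x)
    (measurable_swap hSm) hb' (fun x y => hd y x) (hc.comp continuous_swap)

theorem hasDerivAt_fst {ξ : EuclideanSpace ℝ (Fin 2) → EuclideanSpace ℝ (Fin 2)}
    (hξ : ContDiff ℝ 1 ξ) (i : Fin 2) (x y : ℝ) :
    HasDerivAt (fun x => ξ (pt x y) i) ((fderiv ℝ ξ (pt x y) (EuclideanSpace.single 0 1)) i) x := by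
  have h1 : HasDerivAt (fun x => pt x y) (EuclideanSpace.single 0 1) x := by
    have h2 : (fun x => pt x y) = fun x => pt 0 y + x • EuclideanSpace.single (0 : Fin 2) (1 : ℝ) := by
      funext x
      ext j
      fin_cases j <;> simp
    rw [h2]
    simpa using ((hasDerivAt_id x).smul_const (EuclideanSpace.single (0 : Fin 2) (1 : ℝ))).const_add
      (pt 0 y)
  have h3 := ((hξ.differentiable one_ne_zero (pt x y)).hasFDerivAt).comp_hasDerivAt x h1
  exact ((EuclideanSpace.proj (𝕜 := ℝ) i).hasFDerivAt).comp_hasDerivAt x h3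

theorem hasDerivAt_snd {ξ : EuclideanSpace ℝ (Fin 2) → EuclideanSpace ℝ (Fin 2)}
    (hξ : ContDiff ℝ 1 ξ) (i : Fin 2) (x y : ℝ) :
    HasDerivAt (fun y => ξ (pt x y) i) ((fderiv ℝ ξ (pt x y) (EuclideanSpace.single 1 1)) i) y := by
  have h1 : HasDerivAt (fun y => pt x y) (EuclideanSpace.single 1 1) y := by
    have h2 : (fun y => pt x y) = fun y => pt x 0 + y • EuclideanSpace.single (1 : Fin 2) (1 : ℝ) := by
      funext x
      ext j
      fin_cases j <;> simp
    rw [h2]
    simpa using ((hasDerivAt_id y).smul_const (EuclideanSpace.single (1 : Fin 2) (1 : ℝ))).const_add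
      (pt x 0)
  have h3 := ((hξ.differentiable one_ne_zero (pt x y)).hasFDerivAt).comp_hasDerivAt y h1
  exact ((EuclideanSpace.proj (𝕜 := ℝ) i).hasFDerivAt).comp_hasDerivAt y h3

theorem perimeter_cutDisc {K : Set (EuclideanSpace ℝ (Fin 2))} {c s : ℝ} (hc : 0 < c) (hs : 0 < s)
    (hK : ∀ v : EuclideanSpace ℝ (Fin 2), polarNorm K v ≤ c * ∑ i, |v i|) :
    perimeter K (cutDisc s) ≤ ENNReal.ofReal (c * (8 * s)) := by
  have cg := continuous_gg s
  have c1 : Continuous fun y => pt (gg s y) y := continuous_pt.comp (cg.prodMk continuous_id)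
  have c2 : Continuous fun y => pt (-gg s y) y := continuous_pt.comp (cg.neg.prodMk continuous_id)
  have c3 : Continuous fun x => pt x (gg s x) := continuous_pt.comp (continuous_id.prodMk cg)
  have c4 : Continuous fun x => pt x (-gg s x) := continuous_pt.comp (continuous_id.prodMk cg.neg)
  let μ₀ : Measure ℝ := volume.restrict (Ioo (-s) s)
  have hfin : IsFiniteMeasure μ₀ := ⟨by
    change volume.restrict (Ioo (-s) s) univ < ∞
    rw [Measure.restrict_apply_univ]; exact measure_Ioo_lt_top⟩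
  let a : Fin 2 → Measure (EuclideanSpace ℝ (Fin 2)) :=
    ![μ₀.map fun y => pt (gg s y) y, μ₀.map fun x => pt x (gg s x)]
  let b : Fin 2 → Measure (EuclideanSpace ℝ (Fin 2)) :=
    ![μ₀.map fun y => pt (-gg s y) y, μ₀.map fun x => pt x (-gg s x)]
  have ha : ∀ i, IsFiniteMeasure (a i) := by
    intro i
    fin_cases i
    · exact Measure.isFiniteMeasure_map _ _
    · exact Measure.isFiniteMeasure_map _ _
  have hb : ∀ i, IsFiniteMeasure (b i) := by
    intro i
    fin_cases i
    · exact Measure.isFiniteMeasure_map _ _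
    · exact Measure.isFiniteMeasure_map _ _
  obtain ⟨σ, ν, h1, h2, h3, h4, h5⟩ := polar_decomposition a b
  have hmass : ∀ f : ℝ → EuclideanSpace ℝ (Fin 2), Continuous f →
      (μ₀.map f) univ = ENNReal.ofReal (2 * s) := by
    intro f hf
    rw [Measure.map_apply hf.measurable MeasurableSet.univ, preimage_univ]
    change volume.restrict (Ioo (-s) s) univ = _
    rw [Measure.restrict_apply_univ, Real.volume_Ioo]
    congr 1; ring
  have htot : ∑ i, (a i univ + b i univ) = ENNReal.ofReal (8 * s) := by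
    rw [Fin.sum_univ_two]
    change (μ₀.map _) univ + (μ₀.map _) univ + ((μ₀.map _) univ + (μ₀.map _) univ) = _
    rw [hmass _ c1, hmass _ c2, hmass _ c3, hmass _ c4, ← ENNReal.ofReal_add (by positivity)
      (by positivity), ← ENNReal.ofReal_add (by positivity) (by positivity)]
    congr 1; ring
  rw [htot] at h5
  have hN : IsNormalMeasure (cutDisc s) σ ν := by
    refine ⟨h1, h2, h3, fun ξ hξ hξc => ?_⟩
    rw [← h4 ξ hξ.continuous hξc, Fin.sum_univ_two]
    have m1 : ∀ (f : ℝ → EuclideanSpace ℝ (Fin 2)) (i : Fin 2), Continuous f →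
        ∫ z, ξ z i ∂(μ₀.map f) = ∫ y in Ioo (-s) s, ξ (f y) i := by
      intro f i hf
      rw [integral_map hf.measurable.aemeasurable]
      exact ((EuclideanSpace.proj (𝕜 := ℝ) i).continuous.comp hξ.continuous).aestronglyMeasurable
    change _ = (∫ z, ξ z 0 ∂(μ₀.map _) - ∫ z, ξ z 0 ∂(μ₀.map _)) +
      (∫ z, ξ z 1 ∂(μ₀.map _) - ∫ z, ξ z 1 ∂(μ₀.map _))
    rw [m1 _ 0 c1, m1 _ 0 c2, m1 _ 1 c3, m1 _ 1 c4]
    rw [setIntegral_pt]
    set S : Set (ℝ × ℝ) := (fun p : ℝ × ℝ => pt p.1 p.2) ⁻¹' cutDisc s with hS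
    have hSm : MeasurableSet S := ((isOpen_cutDisc s).preimage continuous_pt).measurableSet
    have hSb : Bornology.IsBounded S := by
      refine (Metric.isBounded_iff_subset_closedBall 0).2 ⟨s, fun p hp => ?_⟩
      rw [mem_closedBall_zero_iff, Prod.norm_def]
      exact max_le hp.1.le hp.2.1.le
    have hcf : ∀ i j : Fin 2, Continuous fun p : ℝ × ℝ =>
        (fderiv ℝ ξ (pt p.1 p.2) (EuclideanSpace.single j 1)) i := by
      intro i j
      have h6 : Continuous fun z => fderiv ℝ ξ z := hξ.continuous_fderiv one_ne_zero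
      have h7 : Continuous fun p : ℝ × ℝ => fderiv ℝ ξ (pt p.1 p.2) (EuclideanSpace.single j 1) :=
        (h6.comp continuous_pt).clm_apply continuous_const
      exact (EuclideanSpace.proj (𝕜 := ℝ) i).continuous.comp h7
    have hio : ∀ i j : Fin 2, IntegrableOn (fun p : ℝ × ℝ =>
        (fderiv ℝ ξ (pt p.1 p.2) (EuclideanSpace.single j 1)) i) S := by
      intro i j
      obtain ⟨R, hR⟩ := hSb.subset_closedBall 0
      exact ((hcf i j).continuousOn.integrableOn_compact (isCompact_closedBall 0 R)).mono_set hR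
    have hsplit : ∫ p in S, divergence ξ (pt p.1 p.2) =
        (∫ p in S, (fderiv ℝ ξ (pt p.1 p.2) (EuclideanSpace.single 0 1)) 0) +
        ∫ p in S, (fderiv ℝ ξ (pt p.1 p.2) (EuclideanSpace.single 1 1)) 1 := by
      rw [← integral_add (hio 0 0) (hio 1 1)]
      congr 1
      ext p
      unfold divergence
      rw [Fin.sum_univ_two]
    rw [hsplit]
    have e1 := slice (s := s) (w := fun x y => ξ (pt x y) 0) (S := S)
      (fun x y => mem_cutDisc_iff) hSm hSb (fun x y => hasDerivAt_fst hξ 0 x y) (hcf 0 0)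
    have e2 := slice' (s := s) (w := fun x y => ξ (pt x y) 1) (S := S)
      (fun x y => mem_cutDisc_iff') hSm hSb (fun x y => hasDerivAt_snd hξ 1 x y) (hcf 1 1)
    rw [e1, e2]
    have i1 : ∀ (f : ℝ → EuclideanSpace ℝ (Fin 2)) (i : Fin 2), Continuous f →
        IntegrableOn (fun y => ξ (f y) i) (Ioo (-s) s) := by
      intro f i hf
      have : Continuous fun y => ξ (f y) i :=
        (EuclideanSpace.proj (𝕜 := ℝ) i).continuous.comp (hξ.continuous.comp hf)
      exact (this.continuousOn.integrableOn_compact (isCompact_Icc (a := -s) (b := s))).mono_set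
        Ioo_subset_Icc_self
    congr 1
    · exact integral_sub (i1 _ 0 c1) (i1 _ 0 c2)
    · exact integral_sub (i1 _ 1 c3) (i1 _ 1 c4)
  unfold perimeter
  refine (iInf_le _ σ).trans ((iInf_le _ ν).trans ((iInf_le _ hN).trans ?_))
  calc ∫⁻ x, ENNReal.ofReal (polarNorm K (ν x)) ∂σ
      ≤ ∫⁻ x, ENNReal.ofReal c * ENNReal.ofReal (∑ i, |ν x i|) ∂σ := by
        refine lintegral_mono fun x => ?_
        rw [← ENNReal.ofReal_mul hc.le]
        exact ENNReal.ofReal_le_ofReal (hK _)
    _ = ENNReal.ofReal c * ∫⁻ x, ENNReal.ofReal (∑ i, |ν x i|) ∂σ :=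
        lintegral_const_mul' _ _ ENNReal.ofReal_ne_top
    _ ≤ ENNReal.ofReal c * ENNReal.ofReal (8 * s) := mul_le_mul_right h5 _
    _ = _ := (ENNReal.ofReal_mul hc.le).symm

end Pool.Agent.Q62.Aniso
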