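import Pool.Agent.Q62.AnisoCore

set_option autoImplicit false

namespace Pool.Agent.Q62.Aniso

open MeasureTheory Set Filter Topology Metric
open scoped ENNReal Pointwise

variable {N : ℕ} {K Ω : Set (EuclideanSpace ℝ (Fin N))}

/-- Cheeger constant lower bound. -/
theorem cheeger_ge (hK : IsAnisotropy K) {R : ℝ} (hR : 0 < R) (hΩ : Ω ⊆ ball 0 R)
    {y : EuclideanSpace ℝ (Fin N)} (hy : y ∈ K) :
    ENNReal.ofReal (‖y‖ / (2 * R)) ≤ cheeger K Ω := by
  unfold cheeger
  refine le_iInf fun E => le_iInf fun hE => le_iInf fun hEΩ => le_iInf fun h0 => ?_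
  have hfin : volume E ≠ ∞ :=
    ((measure_mono (hEΩ.trans hΩ)).trans_lt measure_ball_lt_top).ne
  rw [ENNReal.le_div_iff_mul_le (Or.inl h0) (Or.inl hfin)]
  unfold perimeter
  exact le_iInf fun σ => le_iInf fun ν => le_iInf fun hσ => test_field hK hR hΩ hy hEΩ hσ hE

/-! ### A convex body of small volume which contains a ball is small -/

theorem packing {S : Set (EuclideanSpace ℝ (Fin N))} (hS : Convex ℝ S) {r : ℝ} (hr : 0 < r)
    (hball : ball 0 r ⊆ S) {x : EuclideanSpace ℝ (Fin N)} (hx : x ∈ S) (k : ℕ)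
    (hk : 2 * k * r ≤ ‖x‖) : k * volume (ball (0 : EuclideanSpace ℝ (Fin N)) (r / 2)) ≤ volume S := by
  rcases Nat.eq_zero_or_pos k with h0 | h0
  · subst h0; simp
  have hk0 : (0 : ℝ) < k := by exact_mod_cast h0
  set c : Fin k → EuclideanSpace ℝ (Fin N) := fun i => ((i : ℕ) / (2 * k) : ℝ) • x with hc
  have hsub : ∀ i, ball (c i) (r / 2) ⊆ S := by
    intro i z hz
    have ht0 : (0 : ℝ) ≤ (i : ℕ) / (2 * k) := by positivity
    have ht1 : ((i : ℕ) / (2 * k) : ℝ) ≤ 1 / 2 := by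
      rw [div_le_div_iff₀ (by positivity) (by norm_num)]
      have : ((i : ℕ) : ℝ) ≤ k := by exact_mod_cast i.2.le
      linarith
    set t : ℝ := (i : ℕ) / (2 * k) with ht
    have h1 : (0 : ℝ) < 1 - t := by linarith
    have hw : (1 - t)⁻¹ • (z - t • x) ∈ S := by
      apply hball
      rw [mem_ball_zero_iff, norm_smul, Real.norm_eq_abs, abs_of_pos (inv_pos.2 h1)]
      rw [mem_ball, dist_eq_norm] at hz
      rw [inv_mul_lt_iff₀ h1]
      calc ‖z - t • x‖ < r / 2 := hz
        _ ≤ (1 - t) * r := by nlinarith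
    have h2 := hS hx hw ht0 h1.le (by ring)
    rw [smul_smul, mul_inv_cancel₀ h1.ne', one_smul] at h2
    simpa using h2
  have hdisj : Pairwise (Function.onFun Disjoint fun i => ball (c i) (r / 2)) := by
    intro i j hij
    apply ball_disjoint_ball
    rw [add_halves, dist_eq_norm, hc]
    simp only
    rw [← sub_smul, norm_smul, Real.norm_eq_abs]
    have h1 : (1 : ℝ) ≤ |((i : ℕ) : ℝ) - (j : ℕ)| := by
      have h2 : ((i : ℕ) : ℤ) - (j : ℕ) ≠ 0 := by
        intro h
        apply hij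
        apply Fin.ext
        omega
      have h3 := Int.one_le_abs h2
      have h4 : ((1 : ℤ) : ℝ) ≤ ((|((i : ℕ) : ℤ) - (j : ℕ)| : ℤ) : ℝ) := by exact_mod_cast h3
      push_cast at h4
      exact h4
    have h5 : ((i : ℕ) / (2 * k) - (j : ℕ) / (2 * k) : ℝ) = (((i : ℕ) : ℝ) - (j : ℕ)) / (2 * k) := by
      ring
    rw [h5, abs_div, abs_of_pos (by positivity : (0 : ℝ) < 2 * k), div_mul_eq_mul_div,
      le_div_iff₀ (by positivity)]
    calc r * (2 * k) = 2 * k * r := by ring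
      _ ≤ ‖x‖ := hk
      _ = 1 * ‖x‖ := (one_mul _).symm
      _ ≤ |((i : ℕ) : ℝ) - (j : ℕ)| * ‖x‖ := mul_le_mul_of_nonneg_right h1 (norm_nonneg _)
  have h1 : volume (⋃ i, ball (c i) (r / 2)) =
      k * volume (ball (0 : EuclideanSpace ℝ (Fin N)) (r / 2)) := by
    rw [measure_iUnion hdisj fun i => measurableSet_ball, tsum_fintype]
    rw [Finset.sum_congr rfl fun i _ => Measure.addHaar_ball_center volume (c i) (r / 2),
      Finset.sum_const, Finset.card_univ, Fintype.card_fin, nsmul_eq_mul]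
  rw [← h1]
  exact measure_mono (iUnion_subset hsub)

/-! ### Weighted sublevel sets -/

theorem volume_sublevel (hK : IsAnisotropy K) {v s : ℝ} (hv : 0 < v) (hs : 0 < s) :
    volume {x | v * polarNorm K x ≤ s} = ENNReal.ofReal ((s / v) ^ N) * volume (polarSet K) := by
  have h1 : {x | v * polarNorm K x ≤ s} = (s / v) • polarSet K := by
    rw [polarSet_eq hK]
    ext x
    rw [mem_smul_set_iff_inv_smul_mem₀ (by positivity)]
    change v * polarNorm K x ≤ s ↔ polarNorm K ((s / v)⁻¹ • x) ≤ 1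
    rw [hK.polarNorm_smul (by positivity), inv_div, div_mul_eq_mul_div, div_le_one hs]
  rw [h1, Measure.addHaar_smul, finrank_euclideanSpace_fin, abs_of_nonneg (by positivity)]

/-! ### The body of a norm -/

/-- The unit body of a norm between two multiples of the Euclidean norm. -/
theorem exists_body {Φ : EuclideanSpace ℝ (Fin N) → ℝ} {c C : ℝ} (hc : 0 < c) (hC0 : 0 ≤ C)
    (hadd : ∀ x x', Φ (x + x') ≤ Φ x + Φ x') (hsmul : ∀ (t : ℝ) x, 0 < t → Φ (t • x) = t * Φ x)
    (hneg : ∀ x, Φ (-x) = Φ x) (hlow : ∀ x, c * ‖x‖ ≤ Φ x) (hup : ∀ x, Φ x ≤ C * ‖x‖) :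
    ∃ K : Set (EuclideanSpace ℝ (Fin N)), IsAnisotropy K ∧ ∀ x, polarNorm K x = Φ x := by
  have hnn : ∀ x, 0 ≤ Φ x := fun x => (mul_nonneg hc.le (norm_nonneg x)).trans (hlow x)
  set K : Set (EuclideanSpace ℝ (Fin N)) :=
    {y | ∃ s : ℝ, 0 ≤ s ∧ s < 1 ∧ ∀ x, inner ℝ x y ≤ s * Φ x} with hKdef
  have hK : IsAnisotropy K := by
    constructor
    · exact ⟨0, 0, le_rfl, zero_lt_one, fun x => by rw [inner_zero_right, zero_mul]⟩
    · rw [Metric.isOpen_iff]
      rintro y ⟨s, hs0, hs1, hs⟩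
      refine ⟨c * (1 - s) / 2, by have : 0 < 1 - s := by linarith
                                  positivity, fun z hz => ?_⟩
      refine ⟨(1 + s) / 2, by linarith, by linarith, fun x => ?_⟩
      rw [mem_ball, dist_eq_norm] at hz
      have h1 : inner ℝ x z = inner ℝ x y + inner ℝ x (z - y) := by
        rw [← inner_add_right, add_sub_cancel]
      have h2 : inner ℝ x (z - y) ≤ ‖x‖ * (c * (1 - s) / 2) :=
        (real_inner_le_norm _ _).trans (mul_le_mul_of_nonneg_left hz.le (norm_nonneg _))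
      have h3 := hs x
      have h4 := hlow x
      have h5 : 0 ≤ 1 - s := by linarith
      nlinarith [mul_le_mul_of_nonneg_right h4 h5]
    · refine (Metric.isBounded_iff_subset_closedBall 0).2 ⟨C, ?_⟩
      rintro y ⟨s, hs0, hs1, hs⟩
      rw [mem_closedBall_zero_iff]
      rcases eq_or_ne y 0 with h0 | h0
      · rw [h0, norm_zero]; exact hC0
      · have hn : 0 < ‖y‖ := norm_pos_iff.2 h0
        have h1 := hs y
        rw [real_inner_self_eq_norm_sq] at h1
        have h2 : s * Φ y ≤ 1 * (C * ‖y‖) :=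
          mul_le_mul hs1.le (hup y) (hnn y) zero_le_one
        rw [one_mul] at h2
        nlinarith
    · rintro y ⟨s, hs0, hs1, hs⟩ z ⟨t, ht0, ht1, ht⟩ a b ha hb hab
      refine ⟨max s t, le_max_of_le_left hs0, max_lt hs1 ht1, fun x => ?_⟩
      rw [inner_add_right, real_inner_smul_right, real_inner_smul_right]
      have h1 : inner ℝ x y ≤ max s t * Φ x :=
        (hs x).trans (mul_le_mul_of_nonneg_right (le_max_left _ _) (hnn x))
      have h2 : inner ℝ x z ≤ max s t * Φ x :=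
        (ht x).trans (mul_le_mul_of_nonneg_right (le_max_right _ _) (hnn x))
      calc a * inner ℝ x y + b * inner ℝ x z ≤ a * (max s t * Φ x) + b * (max s t * Φ x) :=
            add_le_add (mul_le_mul_of_nonneg_left h1 ha) (mul_le_mul_of_nonneg_left h2 hb)
        _ = (a + b) * (max s t * Φ x) := by ring
        _ = _ := by rw [hab, one_mul]
    · rintro y ⟨s, hs0, hs1, hs⟩
      refine ⟨s, hs0, hs1, fun x => ?_⟩
      rw [inner_neg_right, ← inner_neg_left, ← hneg x]
      exact hs (-x)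
  refine ⟨K, hK, fun x => le_antisymm ?_ ?_⟩
  · refine hK.polarNorm_le ?_
    rintro y ⟨s, hs0, hs1, hs⟩
    refine (hs x).trans ?_
    have := mul_le_mul_of_nonneg_right hs1.le (hnn x)
    rwa [one_mul] at this
  · -- the theorem of Hahn and Banach
    rcases eq_or_ne x 0 with h0 | h0
    · rw [h0]
      have h1 := hup 0
      rw [norm_zero, mul_zero] at h1
      exact h1.trans (hK.polarNorm_nonneg 0)
    let f : (EuclideanSpace ℝ (Fin N)) →ₗ.[ℝ] ℝ := LinearPMap.mkSpanSingleton x (Φ x) h0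
    have hfdom : ∀ z : f.domain, f z ≤ Φ z := by
      rintro ⟨z, hz⟩
      have hz' : z ∈ Submodule.span ℝ {x} := hz
      obtain ⟨t, rfl⟩ := Submodule.mem_span_singleton.1 hz'
      have e1 : f ⟨t • x, hz⟩ = t * Φ x :=
        LinearPMap.mkSpanSingleton'_apply (σ := RingHom.id ℝ) x (Φ x) _ t hz
      rw [e1]
      change t * Φ x ≤ Φ (t • x)
      rcases lt_trichotomy t 0 with h | h | h
      · exact (mul_nonpos_of_nonpos_of_nonneg h.le (hnn x)).trans (hnn _)
      · rw [h, zero_mul]; exact hnn _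
      · rw [hsmul t x h]
    obtain ⟨g, hg1, hg2⟩ := exists_extension_of_le_sublinear f Φ (fun t ht y => hsmul t y ht) hadd
      hfdom
    have hxd : x ∈ f.domain := Submodule.mem_span_singleton_self x
    have hgx : g x = Φ x := by
      have h1 := hg1 ⟨x, hxd⟩
      rw [h1]
      exact LinearPMap.mkSpanSingleton_apply ℝ ℝ h0 (Φ x)
    -- the representing vector
    set y : EuclideanSpace ℝ (Fin N) :=
      (InnerProductSpace.toDual ℝ _).symm (LinearMap.toContinuousLinearMap g) with hy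
    have hgy : ∀ z, inner ℝ z y = g z := by
      intro z
      rw [real_inner_comm, hy, InnerProductSpace.toDual_symm_apply]
      rfl
    have hle : ∀ s : ℝ, 0 ≤ s → s < 1 → s * Φ x ≤ polarNorm K x := by
      intro s hs0 hs1
      have hmem : s • y ∈ K := by
        refine ⟨s, hs0, hs1, fun z => ?_⟩
        rw [real_inner_smul_right, hgy]
        exact mul_le_mul_of_nonneg_left (hg2 z) hs0
      have h1 := hK.inner_le x hmem
      rw [real_inner_smul_right, hgy, hgx] at h1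
      exact h1
    have hlim : Tendsto (fun s : ℝ => s * Φ x) (𝓝[<] 1) (𝓝 (Φ x)) := by
      have h1 : ContinuousAt (fun s : ℝ => s * Φ x) 1 := by fun_prop
      have h2 := h1.tendsto
      rw [one_mul] at h2
      exact h2.mono_left nhdsWithin_le_nhds
    refine le_of_tendsto hlim ?_
    filter_upwards [Ioo_mem_nhdsLT (show (0 : ℝ) < 1 by norm_num)] with s hs
    exact hle s hs.1.le hs.2

/-! ### Comparison -/

theorem perimeter_le_of_le {K K' E : Set (EuclideanSpace ℝ (Fin N))} {a : ℝ} (ha : 0 < a)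
    (h : ∀ x, polarNorm K x ≤ a * polarNorm K' x) :
    perimeter K E ≤ ENNReal.ofReal a * perimeter K' E := by
  have ha0 : ENNReal.ofReal a ≠ 0 := (ENNReal.ofReal_pos.2 ha).ne'
  have hat : ENNReal.ofReal a ≠ ∞ := ENNReal.ofReal_ne_top
  rw [mul_comm, ← ENNReal.div_le_iff_le_mul (Or.inl ha0) (Or.inl hat)]
  unfold perimeter
  refine le_iInf fun σ => le_iInf fun ν => le_iInf fun hσ => ?_
  rw [ENNReal.div_le_iff_le_mul (Or.inl ha0) (Or.inl hat), mul_comm]
  refine (iInf_le _ σ).trans ((iInf_le _ ν).trans ((iInf_le _ hσ).trans ?_))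
  rw [← lintegral_const_mul' _ _ hat]
  refine lintegral_mono fun x => ?_
  rw [← ENNReal.ofReal_mul ha.le]
  exact ENNReal.ofReal_le_ofReal (h _)

theorem cheeger_le_of_le {K K' : Set (EuclideanSpace ℝ (Fin N))} {a : ℝ} (ha : 0 < a)
    (h : ∀ x, polarNorm K x ≤ a * polarNorm K' x) :
    cheeger K Ω ≤ ENNReal.ofReal a * cheeger K' Ω := by
  have ha0 : ENNReal.ofReal a ≠ 0 := (ENNReal.ofReal_pos.2 ha).ne'
  have hat : ENNReal.ofReal a ≠ ∞ := ENNReal.ofReal_ne_top
  rw [mul_comm, ← ENNReal.div_le_iff_le_mul (Or.inl ha0) (Or.inl hat)]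
  unfold cheeger
  refine le_iInf fun E => le_iInf fun hE => le_iInf fun hEΩ => le_iInf fun h0 => ?_
  rw [ENNReal.div_le_iff_le_mul (Or.inl ha0) (Or.inl hat)]
  refine (iInf_le _ E).trans ((iInf_le _ hE).trans ((iInf_le _ hEΩ).trans ((iInf_le _ h0).trans ?_)))
  rw [mul_comm, ← mul_div_assoc]
  exact ENNReal.div_le_div_right (perimeter_le_of_le ha h) _

/-- The normalised polar norm. -/
noncomputable def vv (K : Set (EuclideanSpace ℝ (Fin N))) : ℝ :=
  (volume (polarSet K)).toReal ^ (1 / (N : ℝ))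

theorem vv_pos (hK : IsAnisotropy K) : 0 < vv K :=
  Real.rpow_pos_of_pos (ENNReal.toReal_pos (volume_polarSet_pos hK).ne'
    (volume_polarSet_lt_top hK).ne) _

theorem J_eq (hK : IsAnisotropy K) : J Ω K = cheeger K Ω * ENNReal.ofReal (vv K) := by
  unfold J vv
  rw [← ENNReal.ofReal_rpow_of_pos (ENNReal.toReal_pos (volume_polarSet_pos hK).ne'
    (volume_polarSet_lt_top hK).ne), ENNReal.ofReal_toReal (volume_polarSet_lt_top hK).ne]

theorem volume_sub (hN : N ≠ 0) (hK : IsAnisotropy K) {s : ℝ} (hs : 0 < s) :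
    volume {x | vv K * polarNorm K x ≤ s} = ENNReal.ofReal (s ^ N) := by
  have h0 : 0 < (volume (polarSet K)).toReal := ENNReal.toReal_pos (volume_polarSet_pos hK).ne'
    (volume_polarSet_lt_top hK).ne
  have h1 : vv K ^ N = (volume (polarSet K)).toReal := by
    unfold vv
    rw [← Real.rpow_natCast, ← Real.rpow_mul h0.le, one_div,
      inv_mul_cancel₀ (by exact_mod_cast hN), Real.rpow_one]
  rw [volume_sublevel hK (vv_pos hK) hs]
  conv_lhs => rw [← ENNReal.ofReal_toReal (volume_polarSet_lt_top hK).ne]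
  rw [← ENNReal.ofReal_mul (by have := vv_pos hK; positivity), div_pow, h1,
    div_mul_cancel₀ _ h0.ne']

/-- Compactness. -/
theorem compactness {C c : ℝ} (hC : 0 < C) (hc : 0 < c) {F : ℕ → EuclideanSpace ℝ (Fin N) → ℝ}
    (hadd : ∀ n x x', F n (x + x') ≤ F n x + F n x')
    (hsmul : ∀ n (t : ℝ) x, 0 < t → F n (t • x) = t * F n x)
    (hneg : ∀ n x, F n (-x) = F n x) (hlow : ∀ n x, c * ‖x‖ ≤ F n x)
    (hup : ∀ n x, F n x ≤ C * ‖x‖) :
    ∃ K : Set (EuclideanSpace ℝ (Fin N)), IsAnisotropy K ∧ ∀ ε : ℝ, 0 < ε → ∀ n₀ : ℕ,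
      ∃ n, n₀ ≤ n ∧ ∀ x, (1 - ε) * polarNorm K x ≤ F n x ∧ F n x ≤ (1 + ε) * polarNorm K x := by
  set U : Ultrafilter ℕ := hyperfilter ℕ with hU
  have hlim : ∀ x, ∃ a, Tendsto (fun n => F n x) U (𝓝 a) := by
    intro x
    have h0 : ∀ᶠ n in (U : Filter ℕ), F n x ∈ Icc (c * ‖x‖) (C * ‖x‖) :=
      Filter.Eventually.of_forall fun n => ⟨hlow n x, hup n x⟩
    have h1 : Icc (c * ‖x‖) (C * ‖x‖) ∈ U.map (fun n => F n x) := h0
    obtain ⟨a, -, ha⟩ := isCompact_Icc.ultrafilter_le_nhds' _ h1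
    exact ⟨a, ha⟩
  choose Φ hΦ using hlim
  have hlip : ∀ n x z, |F n x - F n z| ≤ C * ‖x - z‖ := by
    intro n x z
    have key : ∀ x z, F n x - F n z ≤ C * ‖x - z‖ := by
      intro x z
      have h1 := hadd n z (x - z)
      rw [add_sub_cancel] at h1
      linarith [hup n (x - z)]
    rw [abs_le]
    constructor
    · have := key z x
      rw [norm_sub_rev] at this
      linarith
    · exact key x z
  have aadd : ∀ x x', Φ (x + x') ≤ Φ x + Φ x' := fun x x' =>
    le_of_tendsto_of_tendsto' (hΦ _) ((hΦ x).add (hΦ x')) fun n => hadd n x x'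
  have asmul : ∀ (t : ℝ) x, 0 < t → Φ (t • x) = t * Φ x := fun t x ht =>
    tendsto_nhds_unique (hΦ _) (((hΦ x).const_mul t).congr fun n => (hsmul n t x ht).symm)
  have aneg : ∀ x, Φ (-x) = Φ x := fun x =>
    tendsto_nhds_unique (hΦ _) ((hΦ x).congr fun n => (hneg n x).symm)
  have alow : ∀ x, c * ‖x‖ ≤ Φ x := fun x => ge_of_tendsto' (hΦ x) fun n => hlow n x
  have aup : ∀ x, Φ x ≤ C * ‖x‖ := fun x => le_of_tendsto' (hΦ x) fun n => hup n x
  have alip : ∀ x z, |Φ x - Φ z| ≤ C * ‖x - z‖ := fun x z =>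
    le_of_tendsto' ((hΦ x).sub (hΦ z)).abs fun n => hlip n x z
  obtain ⟨K, hK, hKΦ⟩ := exists_body hc hC.le aadd asmul aneg alow aup
  refine ⟨K, hK, fun ε hε n₀ => ?_⟩
  -- uniform convergence
  have hunif : ∀ᶠ n in (U : Filter ℕ), ∀ x, |F n x - Φ x| ≤ ε * c * ‖x‖ := by
    set δ : ℝ := ε * c / (3 * C) with hδ
    have hδ0 : 0 < δ := by positivity
    obtain ⟨t, -, htf, hcov⟩ :=
      (isCompact_closedBall (0 : EuclideanSpace ℝ (Fin N)) 1).finite_cover_balls hδ0
    have h1 : ∀ᶠ n in (U : Filter ℕ), ∀ z ∈ t, |F n z - Φ z| ≤ ε * c / 3 := by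
      rw [Filter.eventually_all_finite htf]
      intro z _
      have h2 : Tendsto (fun n => |F n z - Φ z|) U (𝓝 0) := by
        have := ((hΦ z).sub_const (Φ z)).abs
        rwa [sub_self, abs_zero] at this
      exact h2.eventually_le_const (by positivity)
    filter_upwards [h1] with n hn x
    rcases eq_or_ne x 0 with h0 | h0
    · have e1 : F n 0 = 0 := le_antisymm (by simpa using hup n 0) (by simpa using hlow n 0)
      have e2 : Φ 0 = 0 := le_antisymm (by simpa using aup 0) (by simpa using alow 0)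
      rw [h0, e1, e2]; simp
    have hn0 : 0 < ‖x‖ := norm_pos_iff.2 h0
    set u := ‖x‖⁻¹ • x with hu
    have hxu : x = ‖x‖ • u := by
      rw [hu, smul_smul, mul_inv_cancel₀ hn0.ne', one_smul]
    have hu1 : u ∈ closedBall (0 : EuclideanSpace ℝ (Fin N)) 1 := by
      rw [mem_closedBall_zero_iff, hu, norm_smul, norm_inv, norm_norm, inv_mul_cancel₀ hn0.ne']
    obtain ⟨z, hz, huz⟩ := mem_iUnion₂.1 (hcov hu1)
    rw [mem_ball, dist_eq_norm] at huz
    have h2 : |F n u - Φ u| ≤ ε * c := by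
      have a1 := hlip n u z
      have a2 := hn z hz
      have a3 := alip z u
      rw [norm_sub_rev] at a3
      have a4 : C * ‖u - z‖ ≤ ε * c / 3 := by
        calc C * ‖u - z‖ ≤ C * δ := mul_le_mul_of_nonneg_left huz.le hC.le
          _ = ε * c / 3 := by rw [hδ]; field_simp
      have a5 : F n u - Φ u = (F n u - F n z) + (F n z - Φ z) + (Φ z - Φ u) := by ring
      rw [a5]
      calc |(F n u - F n z) + (F n z - Φ z) + (Φ z - Φ u)|
          ≤ |F n u - F n z| + |F n z - Φ z| + |Φ z - Φ u| := abs_add_three _ _ _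
        _ ≤ ε * c := by linarith
    rw [hxu, hsmul n _ _ hn0, asmul _ _ hn0, ← mul_sub, abs_mul, abs_of_pos hn0, norm_smul,
      norm_norm]
    have h3 : ‖u‖ = 1 := by
      rw [hu, norm_smul, norm_inv, norm_norm, inv_mul_cancel₀ hn0.ne']
    rw [h3, mul_one, mul_comm]
    exact mul_le_mul_of_nonneg_right h2 hn0.le
  have hge : ∀ᶠ n in (U : Filter ℕ), n₀ ≤ n :=
    (Nat.hyperfilter_le_atTop (Filter.eventually_ge_atTop n₀))
  obtain ⟨n, hn1, hn2⟩ := (hge.and hunif).exists
  refine ⟨n, hn1, fun x => ?_⟩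
  rw [hKΦ]
  have h1 := abs_le.1 (hn2 x)
  have h2 : ε * c * ‖x‖ ≤ ε * Φ x := by
    rw [mul_assoc]; exact mul_le_mul_of_nonneg_left (alow x) hε.le
  constructor <;> linarith [h1.1, h1.2]

/-- Main theorem. -/
theorem main (hN : N ≠ 0) (hΩ : Bornology.IsBounded Ω) :
    ∃ K₀ : Set (EuclideanSpace ℝ (Fin N)), IsAnisotropy K₀ ∧
      ∀ K, IsAnisotropy K → J Ω K₀ ≤ J Ω K := by
  set m : ℝ≥0∞ := ⨅ (K : Set (EuclideanSpace ℝ (Fin N))) (_ : IsAnisotropy K), J Ω K with hm
  have hmle : ∀ K, IsAnisotropy K → m ≤ J Ω K := fun K hK => iInf₂_le K hK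
  rcases eq_or_ne m ∞ with htop | htop
  · refine ⟨ball 0 1, ⟨⟨0, mem_ball_self one_pos⟩, isOpen_ball, isBounded_ball,
      convex_ball 0 1, fun y hy => by simpa using hy⟩, fun K hK => ?_⟩
    have := hmle K hK
    rw [htop, top_le_iff] at this
    rw [this]; exact le_top
  -- a minimising sequence
  have hseq : ∀ n : ℕ, ∃ K : Set (EuclideanSpace ℝ (Fin N)), IsAnisotropy K ∧
      J Ω K < m + ((n : ℝ≥0∞) + 1)⁻¹ := by
    intro n
    have h1 : m < m + ((n : ℝ≥0∞) + 1)⁻¹ :=
      ENNReal.lt_add_right htop (ENNReal.inv_ne_zero.2 (by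
        exact ENNReal.add_ne_top.2 ⟨ENNReal.natCast_ne_top n, ENNReal.one_ne_top⟩))
    rw [hm] at h1
    obtain ⟨K, h2⟩ := iInf_lt_iff.1 h1
    obtain ⟨hK, h3⟩ := iInf_lt_iff.1 h2
    exact ⟨K, hK, h3⟩
  choose K hK hJ using hseq
  obtain ⟨R, hR, hΩR⟩ : ∃ R : ℝ, 0 < R ∧ Ω ⊆ ball 0 R := by
    obtain ⟨r, hr⟩ := hΩ.subset_ball 0
    exact ⟨max r 1, by positivity, hr.trans (ball_subset_ball (le_max_left _ _))⟩
  have hJ1 : ∀ n, J Ω (K n) ≤ m + 1 := by
    intro n
    refine (hJ n).le.trans (add_le_add le_rfl ?_)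
    rw [ENNReal.inv_le_one]
    exact le_add_self
  set C : ℝ := 2 * R * (m.toReal + 1) with hCdef
  have hC : 0 < C := by
    have := ENNReal.toReal_nonneg (a := m)
    positivity
  set F : ℕ → EuclideanSpace ℝ (Fin N) → ℝ := fun n x => vv (K n) * polarNorm (K n) x with hF
  have hup : ∀ n x, F n x ≤ C * ‖x‖ := by
    intro n x
    have hv := vv_pos (hK n)
    have h1 : ∀ y ∈ K n, ‖y‖ ≤ C / vv (K n) := by
      intro y hy
      have h2 := cheeger_ge (hK n) hR hΩR hy
      have h3 := hJ1 n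
      rw [J_eq (hK n)] at h3
      have h4 : ENNReal.ofReal (‖y‖ / (2 * R)) * ENNReal.ofReal (vv (K n)) ≤ m + 1 :=
        (mul_le_mul_left h2 _).trans h3
      rw [← ENNReal.ofReal_mul (by positivity)] at h4
      have h5 := ENNReal.toReal_mono (ENNReal.add_ne_top.2 ⟨htop, ENNReal.one_ne_top⟩) h4
      rw [ENNReal.toReal_ofReal (by positivity), ENNReal.toReal_add htop ENNReal.one_ne_top,
        ENNReal.toReal_one] at h5
      rw [le_div_iff₀ hv, hCdef]
      rw [div_mul_eq_mul_div, div_le_iff₀ (by positivity)] at h5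
      linarith
    have h2 := (hK n).polarNorm_le_mul h1 x
    calc F n x ≤ vv (K n) * (C / vv (K n) * ‖x‖) := mul_le_mul_of_nonneg_left h2 hv.le
      _ = C * ‖x‖ := by field_simp
  have hadd : ∀ n x x', F n (x + x') ≤ F n x + F n x' := by
    intro n x x'
    rw [hF]
    simp only
    rw [← mul_add]
    exact mul_le_mul_of_nonneg_left ((hK n).polarNorm_add x x') (vv_pos (hK n)).le
  have hsmul : ∀ n (t : ℝ) x, 0 < t → F n (t • x) = t * F n x := by
    intro n t x ht
    rw [hF]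
    simp only
    rw [(hK n).polarNorm_smul ht]; ring
  have hneg : ∀ n x, F n (-x) = F n x := by
    intro n x
    rw [hF]
    simp only
    rw [(hK n).polarNorm_neg]
  -- the lower bound
  obtain ⟨k, hk⟩ : ∃ k : ℕ, 1 < k * volume (ball (0 : EuclideanSpace ℝ (Fin N)) (1 / C / 2)) := by
    have h1 : volume (ball (0 : EuclideanSpace ℝ (Fin N)) (1 / C / 2)) ≠ 0 :=
      (measure_ball_pos volume _ (by positivity)).ne'
    obtain ⟨k, hk⟩ := ENNReal.exists_nat_mul_gt h1 ENNReal.one_ne_top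
    exact ⟨k, hk⟩
  have hk0 : k ≠ 0 := by
    rintro rfl
    simp at hk
  have hk0' : (0 : ℝ) < k := by exact_mod_cast Nat.pos_of_ne_zero hk0
  set C' : ℝ := 2 * k * (1 / C) with hC'
  have hC'0 : 0 < C' := by positivity
  have hsmall : ∀ n x, F n x ≤ 1 → ‖x‖ ≤ C' := by
    intro n x hx
    by_contra hcon
    push Not at hcon
    have hconv : Convex ℝ {x | F n x ≤ 1} := by
      intro a ha b hb s t hs ht hst
      change F n (s • a + t • b) ≤ 1
      have e0 : ∀ (s : ℝ) (a : EuclideanSpace ℝ (Fin N)), 0 ≤ s → F n a ≤ 1 → F n (s • a) ≤ s := by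
        intro s a hs ha
        rcases eq_or_lt_of_le hs with h | h
        · rw [← h, zero_smul]
          simpa using hup n 0
        · rw [hsmul n s a h]
          calc s * F n a ≤ s * 1 := mul_le_mul_of_nonneg_left ha hs
            _ = s := mul_one s
      calc F n (s • a + t • b) ≤ F n (s • a) + F n (t • b) := hadd n _ _
        _ ≤ s + t := add_le_add (e0 s a hs ha) (e0 t b ht hb)
        _ = 1 := hst
    have hball : ball (0 : EuclideanSpace ℝ (Fin N)) (1 / C) ⊆ {x | F n x ≤ 1} := by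
      intro z hz
      rw [mem_ball_zero_iff, lt_div_iff₀ hC] at hz
      change F n z ≤ 1
      linarith [hup n z]
    have h1 := packing hconv (by positivity) hball (show x ∈ {x | F n x ≤ 1} from hx) k hcon.le
    have h2 : volume {x | F n x ≤ 1} = 1 := by
      rw [volume_sub hN (hK n) one_pos, one_pow, ENNReal.ofReal_one]
    rw [h2] at h1
    exact absurd h1 (not_le.2 hk)
  have hlow : ∀ n x, 1 / C' * ‖x‖ ≤ F n x := by
    intro n x
    have hFn : 0 ≤ F n x := mul_nonneg (vv_pos (hK n)).le ((hK n).polarNorm_nonneg x)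
    refine le_of_forall_pos_le_add fun ε hε => ?_
    have hs : 0 < F n x + ε := by linarith
    have h1 : F n ((F n x + ε)⁻¹ • x) ≤ 1 := by
      rw [hsmul n _ _ (inv_pos.2 hs), inv_mul_le_iff₀ hs]
      linarith
    have h2 := hsmall n _ h1
    rw [norm_smul, norm_inv, Real.norm_eq_abs, abs_of_pos hs, inv_mul_le_iff₀ hs] at h2
    rw [one_div, inv_mul_le_iff₀ hC'0]
    linarith
  obtain ⟨K₀, hK₀, hcomp⟩ := compactness hC (one_div_pos.2 hC'0) hadd hsmul hneg hlow hup
  refine ⟨K₀, hK₀, fun K' hK' => le_trans ?_ (hmle K' hK')⟩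
  -- the estimate
  have hest : ∀ i : ℕ, J Ω K₀ ≤ ENNReal.ofReal ((1 + ((i : ℝ) + 2)⁻¹) / (1 - ((i : ℝ) + 2)⁻¹)) *
      (m + ((i : ℝ≥0∞) + 1)⁻¹) := by
    intro i
    set ε : ℝ := ((i : ℝ) + 2)⁻¹ with hε
    have hε0 : 0 < ε := by positivity
    have hε1 : ε < 1 := inv_lt_one_of_one_lt₀ (by
      have : (0 : ℝ) ≤ i := Nat.cast_nonneg i
      linarith)
    have h1ε : 0 < 1 - ε := by linarith
    obtain ⟨n, hn, hcmp⟩ := hcomp ε hε0 i
    have hv := vv_pos (hK n)
    have hch : cheeger K₀ Ω ≤ ENNReal.ofReal ((1 - ε)⁻¹ * vv (K n)) * cheeger (K n) Ω := by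
      apply cheeger_le_of_le (by positivity)
      intro x
      rw [mul_assoc, le_inv_mul_iff₀ h1ε]
      exact (hcmp x).1
    have hvol : volume (polarSet K₀) ≤ ENNReal.ofReal ((1 + ε) ^ N) := by
      rw [← volume_sub hN (hK n) (by linarith : 0 < 1 + ε)]
      apply measure_mono
      intro x hx
      have h2 : polarNorm K₀ x ≤ 1 := polarSet_subset hK₀ hx
      change F n x ≤ 1 + ε
      calc F n x ≤ (1 + ε) * polarNorm K₀ x := (hcmp x).2
        _ ≤ (1 + ε) * 1 := mul_le_mul_of_nonneg_left h2 (by linarith)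
        _ = 1 + ε := mul_one _
    have hvol' : volume (polarSet K₀) ^ (1 / (N : ℝ)) ≤ ENNReal.ofReal (1 + ε) := by
      refine (ENNReal.rpow_le_rpow hvol (by positivity)).trans ?_
      rw [ENNReal.ofReal_rpow_of_pos (by positivity), ← Real.rpow_natCast,
        ← Real.rpow_mul (by linarith), mul_one_div_cancel (by exact_mod_cast hN), Real.rpow_one]
    calc J Ω K₀ = cheeger K₀ Ω * volume (polarSet K₀) ^ (1 / (N : ℝ)) := rfl
      _ ≤ (ENNReal.ofReal ((1 - ε)⁻¹ * vv (K n)) * cheeger (K n) Ω) * ENNReal.ofReal (1 + ε) :=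
          mul_le_mul' hch hvol'
      _ = ENNReal.ofReal ((1 + ε) / (1 - ε)) * J Ω (K n) := by
          rw [J_eq (hK n), ENNReal.ofReal_mul (by positivity), div_eq_mul_inv,
            ENNReal.ofReal_mul (by positivity)]
          ring
      _ ≤ _ := by
          refine mul_le_mul_right ((hJ n).le.trans (add_le_add le_rfl ?_)) _
          rw [ENNReal.inv_le_inv]
          exact add_le_add (by exact_mod_cast hn) le_rfl
  -- the limit
  have l1 : Tendsto (fun i : ℕ => ENNReal.ofReal ((1 + ((i : ℝ) + 2)⁻¹) / (1 - ((i : ℝ) + 2)⁻¹)))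
      atTop (𝓝 1) := by
    rw [← ENNReal.ofReal_one]
    apply ENNReal.tendsto_ofReal
    have h1 : Tendsto (fun i : ℕ => ((i : ℝ) + 2)⁻¹) atTop (𝓝 0) :=
      tendsto_inv_atTop_zero.comp (tendsto_atTop_add_const_right _ _ tendsto_natCast_atTop_atTop)
    have h2 : Tendsto (fun i : ℕ => (1 + ((i : ℝ) + 2)⁻¹) / (1 - ((i : ℝ) + 2)⁻¹)) atTop
        (𝓝 ((1 + 0) / (1 - 0))) := (h1.const_add 1).div (h1.const_sub 1) (by norm_num)
    rwa [add_zero, sub_zero, div_one] at h2
  have l2 : Tendsto (fun i : ℕ => m + ((i : ℝ≥0∞) + 1)⁻¹) atTop (𝓝 m) := by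
    have h1 : Tendsto (fun i : ℕ => ((i : ℝ≥0∞) + 1)⁻¹) atTop (𝓝 0) := by
      have h2 := (tendsto_add_atTop_iff_nat 1).2 ENNReal.tendsto_inv_nat_nhds_zero
      refine h2.congr fun i => ?_
      push_cast
      rfl
    have h2 := (tendsto_const_nhds (x := m)).add h1
    rwa [add_zero] at h2
  have l3 := ENNReal.Tendsto.mul l1 (Or.inl one_ne_zero) l2 (Or.inr ENNReal.one_ne_top)
  rw [one_mul] at l3
  exact ge_of_tendsto' l3 hest

end Pool.Agent.Q62.Aniso
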