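import Pool.Agent.Q62.AnisoDefs

set_option autoImplicit false

/-!
# Polygons in the plane: definitions
-/

namespace Pool.Agent.Q62.Aniso

/-- `K` is an open convex polygon with exactly `n` vertices (and `n` sides): the interior of the
convex hull of a set `V` of `n` points in convex position. -/
def IsPolygon (n : ℕ) (K : Set (EuclideanSpace ℝ (Fin 2))) : Prop :=
  ∃ V : Finset (EuclideanSpace ℝ (Fin 2)), V.card = n ∧
    ConvexIndependent ℝ (fun v : V => (v : EuclideanSpace ℝ (Fin 2))) ∧
    K = interior (convexHull ℝ (V : Set (EuclideanSpace ℝ (Fin 2))))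

/-- The open regular `n`-gon circumscribed about the unit disc: the intersection of the open
half-planes `{x : x · u_j < 1}` with `u_j = (cos (2 π j / n), sin (2 π j / n))`, `0 ≤ j < n`. -/
def regularPolygon (n : ℕ) : Set (EuclideanSpace ℝ (Fin 2)) :=
  {x | ∀ j : Fin n, x 0 * Real.cos (2 * Real.pi * j / n) + x 1 * Real.sin (2 * Real.pi * j / n) < 1}

end Pool.Agent.Q62.Aniso
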