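import Pool.Agent.Q62.AnisoDisc
import Pool.Agent.Q62.AnisoPolyDefs

set_option autoImplicit false

/-!
# Regular polygons and polygons near the square
-/

namespace Pool.Agent.Q62.Aniso

open MeasureTheory Set Filter Topology Metric
open scoped ENNReal Real

/-! ### The regular polygon -/

theorem inner_pt (x : EuclideanSpace ℝ (Fin 2)) (a b : ℝ) :
    inner ℝ x (pt a b) = x 0 * a + x 1 * b := by
  rw [PiLp.inner_apply, Fin.sum_univ_two]
  simp
  ring

theorem norm_pt_sq (a b : ℝ) : ‖pt a b‖ ^ 2 = a ^ 2 + b ^ 2 := by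
  rw [EuclideanSpace.norm_sq_eq, Fin.sum_univ_two]
  simp

theorem norm_pt_cos (t : ℝ) : ‖pt (Real.cos t) (Real.sin t)‖ = 1 := by
  have h := norm_pt_sq (Real.cos t) (Real.sin t)
  rw [Real.cos_sq_add_sin_sq] at h
  nlinarith [norm_nonneg (pt (Real.cos t) (Real.sin t))]

theorem exists_polar (x : EuclideanSpace ℝ (Fin 2)) :
    ∃ θ : ℝ, x 0 = ‖x‖ * Real.cos θ ∧ x 1 = ‖x‖ * Real.sin θ := by
  set z : ℂ := ⟨x 0, x 1⟩ with hz
  have hn : ‖z‖ = ‖x‖ := by
    have h1 : ‖z‖ ^ 2 = ‖x‖ ^ 2 := by
      rw [← Complex.normSq_eq_norm_sq, Complex.normSq_apply, EuclideanSpace.norm_sq_eq,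
        Fin.sum_univ_two]
      simp [hz]
      ring
    exact (pow_left_inj₀ (norm_nonneg _) (norm_nonneg _) two_ne_zero).1 h1
  refine ⟨Complex.arg z, ?_, ?_⟩
  · rw [← hn, Complex.norm_mul_cos_arg]
  · rw [← hn, Complex.norm_mul_sin_arg]

theorem ball_subset_regular (n : ℕ) : ball 0 1 ⊆ regularPolygon n := by
  intro x hx j
  rw [mem_ball_zero_iff] at hx
  rw [← inner_pt]
  refine (real_inner_le_norm _ _).trans_lt ?_
  rw [norm_pt_cos, mul_one]
  exact hx

theorem regular_subset {n : ℕ} (hn : 3 ≤ n) :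
    regularPolygon n ⊆ ball 0 (1 / Real.cos (π / n)) := by
  intro x hx
  have hn0 : (0 : ℝ) < n := by
    have : 0 < n := by omega
    exact_mod_cast this
  have hpi := Real.pi_pos
  have hn3 : (3 : ℝ) ≤ n := by exact_mod_cast hn
  have hlt : π / n < π / 2 := by
    apply div_lt_div_of_pos_left hpi (by norm_num)
    linarith
  have hcos : 0 < Real.cos (π / n) :=
    Real.cos_pos_of_mem_Ioo ⟨by have : 0 < π / n := by positivity
                                linarith, hlt⟩
  rw [mem_ball_zero_iff, lt_div_iff₀ hcos]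
  obtain ⟨θ, h0, h1⟩ := exists_polar x
  set k : ℤ := round (θ * n / (2 * π)) with hk
  have hkr : |θ * n / (2 * π) - k| ≤ 1 / 2 := abs_sub_round _
  -- the residue
  have hnz : (n : ℤ) ≠ 0 := by omega
  set j : ℕ := (k % n).toNat with hj
  have hjlt : j < n := by
    have h2 := Int.emod_lt_of_pos k (by omega : (0 : ℤ) < n)
    have h3 := Int.emod_nonneg k hnz
    omega
  have hjk : ((j : ℤ) : ℝ) = k - n * (k / n : ℤ) := by
    have h3 := Int.emod_nonneg k hnz
    have h4 : (j : ℤ) = k % n := by rw [hj]; exact Int.toNat_of_nonneg h3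
    rw [h4, Int.emod_def]
    push_cast
    ring
  have h2 := hx ⟨j, hjlt⟩
  rw [h0, h1] at h2
  simp only at h2
  have h3 : ‖x‖ * Real.cos θ * Real.cos (2 * π * (j : ℝ) / n) +
      ‖x‖ * Real.sin θ * Real.sin (2 * π * (j : ℝ) / n) =
      ‖x‖ * Real.cos (θ - 2 * π * k / n) := by
    have h4 : θ - 2 * π * k / n = (θ - 2 * π * (j : ℝ) / n) - (k / n : ℤ) * (2 * π) := by
      have : ((j : ℕ) : ℝ) = k - n * (k / n : ℤ) := by
        rw [← hjk]; norm_cast
      rw [this]
      field_simp
      ring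
    rw [h4, Real.cos_sub_int_mul_two_pi, Real.cos_sub]
    ring
  rw [h3] at h2
  have h5 : Real.cos (π / n) ≤ Real.cos (θ - 2 * π * k / n) := by
    rw [← Real.cos_abs (θ - 2 * π * k / n)]
    apply Real.cos_le_cos_of_nonneg_of_le_pi (abs_nonneg _) (by linarith)
    have h6 : θ - 2 * π * k / n = (θ * n / (2 * π) - k) * (2 * π / n) := by
      field_simp
    rw [h6, abs_mul, abs_of_pos (by positivity : 0 < 2 * π / n)]
    calc |θ * n / (2 * π) - k| * (2 * π / n) ≤ 1 / 2 * (2 * π / n) :=
          mul_le_mul_of_nonneg_right hkr (by positivity)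
      _ = π / n := by ring
  calc ‖x‖ * Real.cos (π / n) ≤ ‖x‖ * Real.cos (θ - 2 * π * k / n) :=
        mul_le_mul_of_nonneg_left h5 (norm_nonneg _)
    _ < 1 := h2

theorem regular_anisotropy {m : ℕ} (hm : 2 ≤ m) : IsAnisotropy (regularPolygon (2 * m)) := by
  have c : ∀ i, Continuous fun z : EuclideanSpace ℝ (Fin 2) => z i := fun i =>
    (EuclideanSpace.proj (𝕜 := ℝ) i).continuous
  have hpi := Real.pi_pos
  have heq : regularPolygon (2 * m) = ⋂ j : Fin (2 * m), {x : EuclideanSpace ℝ (Fin 2) |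
      x 0 * Real.cos (2 * π * j / (2 * m : ℕ)) + x 1 * Real.sin (2 * π * j / (2 * m : ℕ)) < 1} := by
    ext x; simp [regularPolygon]
  constructor
  · exact ⟨0, ball_subset_regular _ (mem_ball_self one_pos)⟩
  · rw [heq]
    exact isOpen_iInter_of_finite fun j =>
      isOpen_lt (((c 0).mul continuous_const).add ((c 1).mul continuous_const)) continuous_const
  · exact isBounded_ball.subset (regular_subset (by omega))
  · intro x hx y hy a b ha hb hab j
    have h1 := hx j
    have h2 := hy j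
    simp only [PiLp.add_apply, PiLp.smul_apply, smul_eq_mul]
    set cc := Real.cos (2 * π * j / (2 * m : ℕ))
    set ss := Real.sin (2 * π * j / (2 * m : ℕ))
    have h3 : (a * x 0 + b * y 0) * cc + (a * x 1 + b * y 1) * ss =
        a * (x 0 * cc + x 1 * ss) + b * (y 0 * cc + y 1 * ss) := by ring
    rw [h3]
    rcases eq_or_lt_of_le ha with h | h
    · rw [← h] at hab ⊢
      rw [zero_add] at hab
      rw [hab]; linarith
    · calc a * (x 0 * cc + x 1 * ss) + b * (y 0 * cc + y 1 * ss) < a * 1 + b * 1 :=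
            add_lt_add_of_lt_of_le (mul_lt_mul_of_pos_left h1 h)
              (mul_le_mul_of_nonneg_left h2.le hb)
        _ = 1 := by linarith
  · intro x hx j
    have hm0 : (0 : ℝ) < m := by
      have : 0 < m := by omega
      exact_mod_cast this
    -- the opposite index
    set i : ℕ := ((j : ℕ) + m) % (2 * m) with hi
    have hilt : i < 2 * m := Nat.mod_lt _ (by omega)
    have h1 := hx ⟨i, hilt⟩
    simp only at h1
    have hang : ∃ k : ℤ, 2 * π * (i : ℝ) / (2 * m : ℕ) = (2 * π * ((j : ℕ) : ℝ) / (2 * m : ℕ) + π) -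
        k * (2 * π) := by
      obtain ⟨q, hq⟩ : ∃ q : ℕ, q = ((j : ℕ) + m) / (2 * m) := ⟨_, rfl⟩
      refine ⟨(q : ℤ), ?_⟩
      have h2 : (i : ℝ) = ((j : ℕ) : ℝ) + m - 2 * m * (q : ℝ) := by
        have h3 := Nat.mod_add_div ((j : ℕ) + m) (2 * m)
        rw [← hi, ← hq] at h3
        have h4 : ((i + 2 * m * q : ℕ) : ℝ) = (((j : ℕ) + m : ℕ) : ℝ) := by
          exact_mod_cast h3
        push_cast at h4
        linarith
      rw [h2]
      push_cast
      field_simp
    obtain ⟨k, hk⟩ := hang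
    rw [hk, Real.cos_sub_int_mul_two_pi, Real.sin_sub_int_mul_two_pi, Real.cos_add_pi,
      Real.sin_add_pi] at h1
    simp only [PiLp.neg_apply]
    linarith

/-! ### Polygons near the square -/

theorem exists_near_square {m : ℕ} (hm : 2 ≤ m) {δ : ℝ} (hδ : 0 < δ) (hδ1 : δ ≤ 1) :
    ∃ P : Set (EuclideanSpace ℝ (Fin 2)), IsAnisotropy P ∧ IsPolygon (2 * m) P ∧
      (∀ v : EuclideanSpace ℝ (Fin 2), polarNorm P v ≤ (1 + δ) * ∑ i, |v i|) ∧
      {y : EuclideanSpace ℝ (Fin 2) | |y 0| < 1 ∧ |y 1| < 1} ⊆ P := by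
  classical
  have hpi := Real.pi_pos
  have hpi3 := Real.pi_gt_three
  have hm0 : (0 : ℝ) < m := by
    have : 0 < m := by omega
    exact_mod_cast this
  set α : Fin m → ℝ := fun j => if (j : ℕ) + 1 = m then 3 * π / 4 else π / 4 + (j : ℕ) * (δ / m)
    with hα
  have hαη : ∀ j : Fin m, (j : ℕ) + 1 ≠ m → 0 ≤ ((j : ℕ) : ℝ) * (δ / m) ∧
      ((j : ℕ) : ℝ) * (δ / m) < δ := by
    intro j _
    refine ⟨by positivity, ?_⟩
    have h1 : ((j : ℕ) : ℝ) < m := by exact_mod_cast j.2
    calc ((j : ℕ) : ℝ) * (δ / m) < m * (δ / m) := mul_lt_mul_of_pos_right h1 (by positivity)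
      _ = δ := by field_simp
  have hα1 : ∀ j, π / 4 ≤ α j ∧ α j ≤ 3 * π / 4 := by
    intro j
    rw [hα]
    simp only
    split_ifs with h
    · constructor <;> linarith
    · obtain ⟨h1, h2⟩ := hαη j h
      constructor <;> linarith
  have hαinj : Function.Injective α := by
    intro i j hij
    rw [hα] at hij
    simp only at hij
    apply Fin.ext
    split_ifs at hij with h1 h2 h2
    · omega
    · obtain ⟨h3, h4⟩ := hαη j h2
      linarith
    · obtain ⟨h3, h4⟩ := hαη i h1
      linarith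
    · have h3 : ((i : ℕ) : ℝ) * (δ / m) = ((j : ℕ) : ℝ) * (δ / m) := by linarith
      have h4 := mul_right_cancel₀ (by positivity : (δ / m) ≠ 0) h3
      exact_mod_cast h4
  set sg : Bool → ℝ := fun b => if b then -1 else 1 with hsg
  have hsg1 : ∀ b, sg b = 1 ∨ sg b = -1 := by intro b; cases b <;> simp [hsg]
  set w : Fin m × Bool → EuclideanSpace ℝ (Fin 2) := fun p =>
    pt (sg p.2 * (√2 * Real.cos (α p.1))) (sg p.2 * (√2 * Real.sin (α p.1))) with hw
  have hs2 : (0 : ℝ) < √2 := by positivity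
  have hs22 : √(2 : ℝ) * √2 = 2 := Real.mul_self_sqrt (by norm_num)
  have hsin : ∀ j, 0 < Real.sin (α j) := fun j =>
    Real.sin_pos_of_pos_of_lt_pi (by linarith [(hα1 j).1]) (by linarith [(hα1 j).2])
  have hwinj : Function.Injective w := by
    rintro ⟨i, b⟩ ⟨j, b'⟩ h
    have h0 := congrArg (fun z : EuclideanSpace ℝ (Fin 2) => z 0) h
    have h1 := congrArg (fun z : EuclideanSpace ℝ (Fin 2) => z 1) h
    simp only [hw, pt_zero, pt_one] at h0 h1
    have hbb : b = b' := by
      have p1 : 0 < √2 * Real.sin (α i) := mul_pos hs2 (hsin i)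
      have p2 : 0 < √2 * Real.sin (α j) := mul_pos hs2 (hsin j)
      cases b <;> cases b' <;> simp [hsg] at h1 ⊢ <;> linarith
    subst hbb
    have hsb : sg b ≠ 0 := by rcases hsg1 b with h | h <;> rw [h] <;> norm_num
    have h2 := mul_left_cancel₀ hsb h0
    have h3 := mul_left_cancel₀ hs2.ne' h2
    have h4 := Real.injOn_cos ⟨by linarith [(hα1 i).1], by linarith [(hα1 i).2]⟩
      ⟨by linarith [(hα1 j).1], by linarith [(hα1 j).2]⟩ h3
    rw [hαinj h4]
  have hwn : ∀ p, ‖w p‖ ^ 2 = 2 := by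
    intro p
    rw [hw]
    simp only
    rw [norm_pt_sq]
    have h1 : sg p.2 ^ 2 = 1 := by rcases hsg1 p.2 with h | h <;> rw [h] <;> norm_num
    have h2 := Real.cos_sq_add_sin_sq (α p.1)
    have h3 : √(2 : ℝ) ^ 2 = 2 := Real.sq_sqrt (by norm_num)
    calc (sg p.2 * (√2 * Real.cos (α p.1))) ^ 2 + (sg p.2 * (√2 * Real.sin (α p.1))) ^ 2
        = sg p.2 ^ 2 * √2 ^ 2 * (Real.cos (α p.1) ^ 2 + Real.sin (α p.1) ^ 2) := by ring
      _ = 2 := by rw [h1, h2, h3]; norm_num
  have hwneg : ∀ p : Fin m × Bool, -w p = w (p.1, !p.2) := by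
    rintro ⟨i, b⟩
    rw [hw]
    simp only
    cases b <;> ext k <;> fin_cases k <;> simp [hsg]
  set V : Finset (EuclideanSpace ℝ (Fin 2)) := Finset.univ.image w with hV
  have hmemV : ∀ x, x ∈ (V : Set (EuclideanSpace ℝ (Fin 2))) ↔ ∃ p, w p = x := by
    intro x; simp [hV]
  have hcard : V.card = 2 * m := by
    rw [hV, Finset.card_image_of_injective _ hwinj, Finset.card_univ, Fintype.card_prod,
      Fintype.card_fin, Fintype.card_bool, mul_comm]
  -- convex position
  have hci : ConvexIndependent ℝ (fun v : (V : Set (EuclideanSpace ℝ (Fin 2))) =>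
      (v : EuclideanSpace ℝ (Fin 2))) := by
    rw [convexIndependent_set_iff_notMem_convexHull_sdiff]
    intro x hx hcon
    obtain ⟨p, rfl⟩ := (hmemV x).1 hx
    have hsub : (V : Set (EuclideanSpace ℝ (Fin 2))) \ {w p} ⊆ {z | inner ℝ z (w p) < 2} := by
      rintro z ⟨hz, hzne⟩
      obtain ⟨q, rfl⟩ := (hmemV z).1 hz
      have h1 : 0 < ‖w q - w p‖ ^ 2 := by
        have : w q - w p ≠ 0 := sub_ne_zero.2 hzne
        positivity
      rw [norm_sub_sq_real, hwn, hwn] at h1
      change inner ℝ (w q) (w p) < 2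
      linarith
    have hconv : Convex ℝ {z : EuclideanSpace ℝ (Fin 2) | inner ℝ z (w p) < 2} := by
      intro a ha b hb s t hs ht hst
      change inner ℝ (s • a + t • b) (w p) < 2
      have ha' : inner ℝ a (w p) < 2 := ha
      have hb' : inner ℝ b (w p) < 2 := hb
      rw [inner_add_left, real_inner_smul_left, real_inner_smul_left]
      rcases eq_or_lt_of_le hs with h | h
      · rw [← h] at hst ⊢
        rw [zero_add] at hst
        rw [hst]; linarith
      · calc s * inner ℝ a (w p) + t * inner ℝ b (w p) < s * 2 + t * 2 :=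
              add_lt_add_of_lt_of_le (mul_lt_mul_of_pos_left ha' h)
                (mul_le_mul_of_nonneg_left hb'.le ht)
          _ = 2 := by rw [← add_mul, hst, one_mul]
    have h2 : inner ℝ (w p) (w p) < 2 := convexHull_min hsub hconv hcon
    rw [real_inner_self_eq_norm_sq, hwn] at h2
    exact lt_irrefl _ h2
  -- the corners
  have hcorner : ∀ a b : ℝ, (a = 1 ∨ a = -1) → (b = 1 ∨ b = -1) →
      pt a b ∈ (V : Set (EuclideanSpace ℝ (Fin 2))) := by
    have h0 : α ⟨0, by omega⟩ = π / 4 := by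
      rw [hα]
      simp only
      rw [if_neg (by omega)]
      simp
    have h1 : α ⟨m - 1, by omega⟩ = 3 * π / 4 := by
      rw [hα]
      simp only
      rw [if_pos (by omega)]
    have hc1 : √2 * Real.cos (π / 4) = 1 := by
      rw [Real.cos_pi_div_four]; linarith
    have hc2 : √2 * Real.sin (π / 4) = 1 := by
      rw [Real.sin_pi_div_four]; linarith
    have hc3 : √2 * Real.cos (3 * π / 4) = -1 := by
      have : 3 * π / 4 = π - π / 4 := by ring
      rw [this, Real.cos_pi_sub]; linarith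
    have hc4 : √2 * Real.sin (3 * π / 4) = 1 := by
      have : 3 * π / 4 = π - π / 4 := by ring
      rw [this, Real.sin_pi_sub]; linarith
    intro a b ha hb
    rw [hmemV]
    rcases ha with ha | ha <;> rcases hb with hb | hb <;> subst ha <;> subst hb
    · exact ⟨(⟨0, by omega⟩, false), by simp only [hw, h0, hc1, hc2, hsg]; norm_num⟩
    · exact ⟨(⟨m - 1, by omega⟩, true), by simp only [hw, h1, hc3, hc4, hsg]; norm_num⟩
    · exact ⟨(⟨m - 1, by omega⟩, false), by simp only [hw, h1, hc3, hc4, hsg]; norm_num⟩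
    · exact ⟨(⟨0, by omega⟩, true), by simp only [hw, h0, hc1, hc2, hsg]; norm_num⟩
  have hsquare : {y : EuclideanSpace ℝ (Fin 2) | |y 0| < 1 ∧ |y 1| < 1} ⊆
      convexHull ℝ (V : Set (EuclideanSpace ℝ (Fin 2))) := by
    rintro y ⟨h0, h1⟩
    have hc := convex_convexHull ℝ (V : Set (EuclideanSpace ℝ (Fin 2)))
    have hsubs := subset_convexHull ℝ (V : Set (EuclideanSpace ℝ (Fin 2)))
    rw [abs_lt] at h0 h1
    have hside : ∀ b : ℝ, (b = 1 ∨ b = -1) →
        pt (y 0) b ∈ convexHull ℝ (V : Set (EuclideanSpace ℝ (Fin 2))) := by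
      intro b hb
      have h2 := hc (hsubs (hcorner 1 b (Or.inl rfl) hb)) (hsubs (hcorner (-1) b (Or.inr rfl) hb))
        (a := (1 + y 0) / 2) (b := (1 - y 0) / 2) (by linarith) (by linarith) (by ring)
      convert h2 using 1
      ext k
      fin_cases k <;> simp <;> ring
    have h2 := hc (hside 1 (Or.inl rfl)) (hside (-1) (Or.inr rfl))
      (a := (1 + y 1) / 2) (b := (1 - y 1) / 2) (by linarith) (by linarith) (by ring)
    convert h2 using 1
    ext k
    fin_cases k <;> simp <;> ring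
  have cc : ∀ i, Continuous fun z : EuclideanSpace ℝ (Fin 2) => z i := fun i =>
    (EuclideanSpace.proj (𝕜 := ℝ) i).continuous
  have hopen : IsOpen {y : EuclideanSpace ℝ (Fin 2) | |y 0| < 1 ∧ |y 1| < 1} :=
    (isOpen_lt (cc 0).abs continuous_const).inter (isOpen_lt (cc 1).abs continuous_const)
  have hsquare' := interior_maximal hsquare hopen
  set P : Set (EuclideanSpace ℝ (Fin 2)) :=
    interior (convexHull ℝ (V : Set (EuclideanSpace ℝ (Fin 2)))) with hP
  have hPan : IsAnisotropy P := by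
    constructor
    · exact ⟨0, hsquare' (by simp)⟩
    · exact isOpen_interior
    · exact (isBounded_convexHull.2 V.finite_toSet.isBounded).subset interior_subset
    · exact (convex_convexHull ℝ _).interior
    · have hsymm : -(convexHull ℝ (V : Set (EuclideanSpace ℝ (Fin 2)))) =
          convexHull ℝ (V : Set (EuclideanSpace ℝ (Fin 2))) := by
        rw [← convexHull_neg]
        congr 1
        ext x
        rw [Set.mem_neg, hmemV, hmemV]
        constructor
        · rintro ⟨p, hp⟩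
          exact ⟨(p.1, !p.2), by rw [← hwneg, hp, neg_neg]⟩
        · rintro ⟨p, hp⟩
          exact ⟨(p.1, !p.2), by rw [← hwneg, hp]⟩
      intro y hy
      have h1 : -P ⊆ P := by
        apply interior_maximal
        · rw [← hsymm]
          exact Set.neg_subset_neg.2 interior_subset
        · exact isOpen_interior.neg
      exact h1 (by simpa using hy)
  refine ⟨P, hPan, ⟨V, hcard, hci, rfl⟩, fun v => ?_, hsquare'⟩
  refine hPan.polarNorm_le fun y hy => ?_
  have hsub : (V : Set (EuclideanSpace ℝ (Fin 2))) ⊆ {z | inner ℝ v z ≤ (1 + δ) * ∑ i, |v i|} := by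
    intro z hz
    obtain ⟨p, rfl⟩ := (hmemV z).1 hz
    have hco : |√2 * Real.cos (α p.1)| ≤ 1 + δ ∧ |√2 * Real.sin (α p.1)| ≤ 1 + δ := by
      have hgen : ∀ η : ℝ, 0 ≤ η → η ≤ δ → |√2 * Real.cos (π / 4 + η)| ≤ 1 + δ ∧
          |√2 * Real.sin (π / 4 + η)| ≤ 1 + δ := by
        intro η h1 h2
        rw [Real.cos_add, Real.sin_add, Real.cos_pi_div_four, Real.sin_pi_div_four]
        have e1 : √2 * (√2 / 2 * Real.cos η - √2 / 2 * Real.sin η) = Real.cos η - Real.sin η := by
          linear_combination (Real.cos η - Real.sin η) / 2 * hs22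
        have e2 : √2 * (√2 / 2 * Real.cos η + √2 / 2 * Real.sin η) = Real.cos η + Real.sin η := by
          linear_combination (Real.cos η + Real.sin η) / 2 * hs22
        rw [e1, e2]
        have h3 : |Real.sin η| ≤ δ := by
          refine (Real.abs_sin_le_abs).trans ?_
          rw [abs_of_nonneg h1]; exact h2
        have h4 := Real.abs_cos_le_one η
        constructor
        · exact (abs_sub _ _).trans (add_le_add h4 h3)
        · exact (abs_add_le _ _).trans (add_le_add h4 h3)
      by_cases h : (p.1 : ℕ) + 1 = m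
      · have h1 : α p.1 = 3 * π / 4 := by
          rw [hα]; simp only; rw [if_pos h]
        rw [h1]
        have h2 : 3 * π / 4 = π - π / 4 := by ring
        rw [h2, Real.cos_pi_sub, Real.sin_pi_sub]
        have h3 := hgen 0 le_rfl hδ.le
        rw [add_zero] at h3
        rw [mul_neg, abs_neg]
        exact h3
      · have h1 : α p.1 = π / 4 + ((p.1 : ℕ) : ℝ) * (δ / m) := by
          rw [hα]; simp only; rw [if_neg h]
        rw [h1]
        obtain ⟨h2, h3⟩ := hαη p.1 h
        exact hgen _ h2 h3.le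
    change inner ℝ v (w p) ≤ (1 + δ) * ∑ i, |v i|
    rw [hw]
    simp only
    rw [inner_pt, Fin.sum_univ_two, mul_add]
    have hs : |sg p.2| = 1 := by rcases hsg1 p.2 with h | h <;> rw [h] <;> norm_num
    have key : ∀ a c : ℝ, |c| ≤ 1 + δ → a * (sg p.2 * c) ≤ (1 + δ) * |a| := by
      intro a c hc
      calc a * (sg p.2 * c) ≤ |a * (sg p.2 * c)| := le_abs_self _
        _ = |a| * |c| := by rw [abs_mul, abs_mul, hs, one_mul]
        _ ≤ |a| * (1 + δ) := mul_le_mul_of_nonneg_left hc (abs_nonneg _)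
        _ = _ := mul_comm _ _
    exact add_le_add (key _ _ hco.1) (key _ _ hco.2)
  have hconv : Convex ℝ {z : EuclideanSpace ℝ (Fin 2) | inner ℝ v z ≤ (1 + δ) * ∑ i, |v i|} := by
    intro a ha b hb s t hs ht hst
    have ha' : inner ℝ v a ≤ (1 + δ) * ∑ i, |v i| := ha
    have hb' : inner ℝ v b ≤ (1 + δ) * ∑ i, |v i| := hb
    change inner ℝ v (s • a + t • b) ≤ (1 + δ) * ∑ i, |v i|
    rw [inner_add_right, real_inner_smul_right, real_inner_smul_right]
    calc s * inner ℝ v a + t * inner ℝ v b ≤ s * ((1 + δ) * ∑ i, |v i|) +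
          t * ((1 + δ) * ∑ i, |v i|) :=
          add_le_add (mul_le_mul_of_nonneg_left ha' hs) (mul_le_mul_of_nonneg_left hb' ht)
      _ = _ := by rw [← add_mul, hst, one_mul]
  exact convexHull_min hsub hconv (interior_subset hy)

end Pool.Agent.Q62.Aniso
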