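import Mathlib
import Pool.Agent.Q82.QC.Stm

set_option autoImplicit false

open MeasureTheory Filter Topology Real Set

namespace Pool.Agent.Q82.QC

lemma mol1_bd_nonneg {e : ℝ} (he : 0 < e) (z : E) : 0 ≤ bd e z := by unfold bd; positivity

lemma mol1_bd_cont {e : ℝ} (he : 0 < e) : Continuous (bd e) := by
  unfold bd
  refine Continuous.div (by fun_prop) (by fun_prop) fun z => ?_
  positivity

lemma mol1_subst (e : ℝ) (g : E → ℝ) (x : E) :
    ∫ y, bd e (x - y) * g y = ∫ z, bd e z * g (x - z) := by
  have h := integral_sub_left_eq_self (fun z : E => bd e z * g (x - z)) volume x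
  rw [← h]
  congr 1
  funext y
  simp

theorem mol1 (h1 : S_MASS) (h2 : S_TAIL) : S_MOL := by
  intro g hg hgs η hη
  obtain ⟨M, hM⟩ := hg.bounded_above_of_compact_support hgs
  have hM0 : 0 ≤ M := (norm_nonneg _).trans (hM 0)
  have huc : UniformContinuous g := hgs.uniformContinuous_of_continuous hg
  obtain ⟨δ, hδ, hδg⟩ := Metric.uniformContinuous_iff.1 huc (η / 2) (by positivity)
  obtain ⟨e0, he0, hT⟩ := h2 δ hδ (16 * π ^ 2 * η / (4 * (M + 1))) (by positivity)
  refine ⟨e0, he0, fun e he hlt x => ?_⟩
  obtain ⟨hi, hI⟩ := h1 e he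
  have hTe := hT e he hlt
  have hb0 := mol1_bd_nonneg he
  have hcg : Continuous fun z => g (x - z) := hg.comp (by fun_prop)
  have hint1 : Integrable fun z => bd e z * g (x - z) := by
    refine (hi.const_mul M).mono' ((mol1_bd_cont he).mul hcg).aestronglyMeasurable
      (Eventually.of_forall fun z => ?_)
    rw [Real.norm_eq_abs, abs_mul, abs_of_nonneg (hb0 z), mul_comm]
    exact mul_le_mul_of_nonneg_right (hM _) (hb0 z)
  have hint2 : Integrable fun z => bd e z * g x := hi.mul_const _
  have hpi : (16 * π ^ 2 : ℝ) ≠ 0 := by positivity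
  have hdiff : mol e g x - g x = (16 * π ^ 2)⁻¹ * ∫ z, (bd e z * g (x - z) - bd e z * g x) := by
    rw [integral_sub hint1 hint2, integral_mul_const, hI]
    unfold mol
    rw [mol1_subst]
    field_simp
  set T : E → ℝ := (Metric.ball (0 : E) δ)ᶜ.indicator (bd e) with hTdef
  have hTi : Integrable T := hi.indicator Metric.isOpen_ball.measurableSet.compl
  have hTI : ∫ z, T z ≤ 16 * π ^ 2 * η / (4 * (M + 1)) := by
    rw [hTdef, integral_indicator Metric.isOpen_ball.measurableSet.compl]; exact hTe
  have hpt : ∀ z, |bd e z * g (x - z) - bd e z * g x| ≤ η / 2 * bd e z + 2 * M * T z := by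
    intro z
    rw [← mul_sub, abs_mul, abs_of_nonneg (hb0 z)]
    by_cases hz : z ∈ Metric.ball (0 : E) δ
    · have h3 : dist (x - z) x < δ := by
        rw [dist_eq_norm]
        simpa using hz
      have h4 := hδg h3
      rw [Real.dist_eq] at h4
      have h5 : T z = 0 := by rw [hTdef, indicator_of_notMem]; simpa using hz
      rw [h5, mul_zero, add_zero, mul_comm]
      exact mul_le_mul_of_nonneg_right h4.le (hb0 z)
    · have h5 : T z = bd e z := by rw [hTdef, indicator_of_mem]; exact hz
      rw [h5]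
      have h6 : |g (x - z) - g x| ≤ 2 * M := by
        have := abs_sub (g (x - z)) (g x)
        have h7 := hM (x - z)
        have h8 := hM x
        rw [Real.norm_eq_abs] at h7 h8
        linarith
      have h9 : bd e z * |g (x - z) - g x| ≤ bd e z * (2 * M) :=
        mul_le_mul_of_nonneg_left h6 (hb0 z)
      have := mul_nonneg (by positivity : 0 ≤ η / 2) (hb0 z)
      linarith
  rw [hdiff, abs_mul, abs_of_pos (by positivity : 0 < (16 * π ^ 2)⁻¹)]
  have hle : |∫ z, (bd e z * g (x - z) - bd e z * g x)| ≤ 16 * π ^ 2 * η := by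
    calc |∫ z, (bd e z * g (x - z) - bd e z * g x)|
        ≤ ∫ z, |bd e z * g (x - z) - bd e z * g x| := abs_integral_le_integral_abs
      _ ≤ ∫ z, (η / 2 * bd e z + 2 * M * T z) :=
          integral_mono (hint1.sub hint2).abs ((hi.const_mul _).add (hTi.const_mul _)) hpt
      _ = η / 2 * (16 * π ^ 2) + 2 * M * ∫ z, T z := by
          rw [integral_add (hi.const_mul _) (hTi.const_mul _), integral_const_mul,
            integral_const_mul, hI]
      _ ≤ η / 2 * (16 * π ^ 2) + 2 * M * (16 * π ^ 2 * η / (4 * (M + 1))) := by gcongr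
      _ ≤ η / 2 * (16 * π ^ 2) + η / 2 * (16 * π ^ 2) := by
          have : 2 * M * (16 * π ^ 2 * η / (4 * (M + 1))) ≤ η / 2 * (16 * π ^ 2) := by
            rw [mul_div_assoc', div_le_iff₀ (by positivity)]
            have : 0 < π ^ 2 * η := by positivity
            nlinarith
          linarith
      _ = 16 * π ^ 2 * η := by ring
  calc (16 * π ^ 2)⁻¹ * |∫ z, (bd e z * g (x - z) - bd e z * g x)|
      ≤ (16 * π ^ 2)⁻¹ * (16 * π ^ 2 * η) := by gcongr
    _ = η := by field_simp

theorem moli (h1 : S_MASS) : S_MOLI := by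
  intro e g he hg hgs
  obtain ⟨hi, hI⟩ := h1 e he
  have hb0 := mol1_bd_nonneg he
  have hgi : Integrable g := hg.integrable_of_hasCompactSupport hgs
  have hbd : ∀ z, |bd e z| ≤ 96 / e ^ 4 := by
    intro z
    rw [abs_of_nonneg (hb0 z)]
    unfold bd
    rw [div_le_div_iff₀ (by positivity) (by positivity)]
    have h3 : (e ^ 2) ^ 4 ≤ (e ^ 2 + ‖z‖ ^ 2) ^ 4 := by
      gcongr
      nlinarith [sq_nonneg ‖z‖]
    calc 96 * e ^ 4 * e ^ 4 = 96 * (e ^ 2) ^ 4 := by ring
      _ ≤ 96 * (e ^ 2 + ‖z‖ ^ 2) ^ 4 := by gcongr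
  have hcont : Continuous (mol e g) := by
    unfold mol
    refine continuous_const.mul ?_
    refine continuous_of_dominated (F := fun x y => bd e (x - y) * g y)
      (bound := fun y => 96 / e ^ 4 * |g y|) (fun x => ?_) (fun x => ?_) (hgi.abs.const_mul _) ?_
    · exact (((mol1_bd_cont he).comp (by fun_prop)).mul hg).aestronglyMeasurable
    · refine Eventually.of_forall fun y => ?_
      rw [Real.norm_eq_abs, abs_mul]
      exact mul_le_mul_of_nonneg_right (hbd _) (abs_nonneg _)
    · refine Eventually.of_forall fun y => ?_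
      exact ((mol1_bd_cont he).comp (by fun_prop)).mul continuous_const
  have hprod : Integrable (fun p : E × E => g p.2 * bd e (p.1 - p.2)) (volume.prod volume) :=
    hgi.convolution_integrand (ContinuousLinearMap.mul ℝ ℝ) hi
  have hprod2 : Integrable (fun p : E × E => |g p.2| * bd e (p.1 - p.2)) (volume.prod volume) := by
    have := hprod.abs
    refine this.congr (Eventually.of_forall fun p => ?_)
    simp only [abs_mul, abs_of_nonneg (hb0 _)]
  have hmolint : Integrable (mol e g) := by
    have := hprod.integral_prod_left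
    unfold mol
    refine (this.const_mul (16 * π ^ 2)⁻¹).congr (Eventually.of_forall fun x => ?_)
    simp only [mul_comm (g _)]
  refine ⟨hcont, hmolint, ?_⟩
  have hpi : (16 * π ^ 2 : ℝ) ≠ 0 := by positivity
  have hpi' : (0 : ℝ) < (16 * π ^ 2)⁻¹ := by positivity
  calc ∫ x, |mol e g x| ≤ ∫ x, (16 * π ^ 2)⁻¹ * ∫ y, |g y| * bd e (x - y) := by
        refine integral_mono hmolint.abs (hprod2.integral_prod_left.const_mul _) fun x => ?_
        unfold mol
        simp only
        rw [abs_mul, abs_of_pos hpi']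
        refine mul_le_mul_of_nonneg_left ?_ hpi'.le
        refine abs_integral_le_integral_abs.trans (le_of_eq ?_)
        congr 1
        funext y
        rw [abs_mul, abs_of_nonneg (hb0 _), mul_comm]
    _ = (16 * π ^ 2)⁻¹ * ∫ x, ∫ y, |g y| * bd e (x - y) := integral_const_mul _ _
    _ = (16 * π ^ 2)⁻¹ * ∫ y, ∫ x, |g y| * bd e (x - y) := by
        rw [integral_integral_swap hprod2]
    _ = (16 * π ^ 2)⁻¹ * ∫ y, |g y| * (16 * π ^ 2) := by
        congr 2
        funext y
        rw [integral_const_mul, integral_sub_right_eq_self (fun z => bd e z) y, hI]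
    _ = ∫ y, |g y| := by
        rw [integral_mul_const]
        field_simp

end Pool.Agent.Q82.QC
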