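import Mathlib
import Pool.Agent.Q82.QC.Stm

set_option autoImplicit false

open MeasureTheory Filter Topology Real Set

namespace Pool.Agent.Q82.QC

lemma riesz_finrank : Module.finrank ℝ E = 4 := by simp [E]

lemma riesz_int {s : ℝ} (hs4 : s < 4) (r : ℝ) (hr : 0 < r) :
    IntegrableOn (fun z : E => ‖z‖ ^ (-s)) (Metric.ball (0 : E) r) := by
  refine (integrableOn_fun_norm_addHaar (volume : Measure E) (f := fun r : ℝ => r ^ (-s))).2 ?_
  rw [riesz_finrank]
  have h : IntegrableOn (fun y : ℝ => y ^ (3 - s)) (Ioo 0 r) :=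
    (intervalIntegral.integrableOn_Ioo_rpow_iff hr).2 (by linarith)
  refine h.congr_fun (fun y hy => ?_) measurableSet_Ioo
  have hy0 : 0 < y := hy.1
  simp only [smul_eq_mul]
  rw [show (3 : ℝ) - s = ((3 : ℕ) : ℝ) + -s by push_cast; ring, Real.rpow_add hy0, Real.rpow_natCast]

lemma riesz_small {s : ℝ} (hs4 : s < 4) {η : ℝ} (hη : 0 < η) :
    ∃ r : ℝ, 0 < r ∧ ∫ z in Metric.ball (0 : E) r, ‖z‖ ^ (-s) ≤ η := by
  have hI : Integrable ((Metric.ball (0 : E) 1).indicator fun z : E => ‖z‖ ^ (-s)) :=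
    (integrable_indicator_iff Metric.isOpen_ball.measurableSet).2 (riesz_int hs4 1 one_pos)
  have hv : Tendsto ((volume : Measure E) ∘ fun n : ℕ => Metric.ball (0 : E) (1 / ((n : ℝ) + 1)))
      atTop (𝓝 0) := by
    have h1 : ∀ n : ℕ, (volume : Measure E) (Metric.ball (0 : E) (1 / ((n : ℝ) + 1))) =
        ENNReal.ofReal ((1 / ((n : ℝ) + 1)) ^ 4) * volume (Metric.ball (0 : E) 1) := by
      intro n
      have := Measure.addHaar_ball (volume : Measure E) 0 (r := 1 / ((n : ℝ) + 1)) (by positivity)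
      rw [riesz_finrank] at this
      exact this
    have h2 : Tendsto (fun n : ℕ => ENNReal.ofReal ((1 / ((n : ℝ) + 1)) ^ 4) *
        volume (Metric.ball (0 : E) 1)) atTop (𝓝 (ENNReal.ofReal (0 ^ 4) * volume (Metric.ball (0 : E) 1))) := by
      refine ENNReal.Tendsto.mul_const ?_ (Or.inr (Metric.isBounded_ball.measure_lt_top).ne)
      exact ENNReal.tendsto_ofReal (tendsto_one_div_add_atTop_nhds_zero_nat.pow 4)
    simp only [ne_eq, OfNat.ofNat_ne_zero, not_false_eq_true, zero_pow, ENNReal.ofReal_zero,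
      zero_mul] at h2
    exact h2.congr fun n => (h1 n).symm
  have h3 := hI.tendsto_setIntegral_nhds_zero hv
  obtain ⟨n, hn⟩ := (h3.eventually (gt_mem_nhds hη)).exists
  refine ⟨1 / ((n : ℝ) + 1), by positivity, ?_⟩
  have h4 : ∫ z in Metric.ball (0 : E) (1 / ((n : ℝ) + 1)), ‖z‖ ^ (-s) =
      ∫ z in Metric.ball (0 : E) (1 / ((n : ℝ) + 1)),
        (Metric.ball (0 : E) 1).indicator (fun z : E => ‖z‖ ^ (-s)) z := by
    refine setIntegral_congr_fun Metric.isOpen_ball.measurableSet fun z hz => ?_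
    have : z ∈ Metric.ball (0 : E) 1 := by
      refine Metric.ball_subset_ball ?_ hz
      rw [div_le_one (by positivity)]
      linarith [n.cast_nonneg (α := ℝ)]
    simp [indicator_of_mem this]
  rw [h4]
  exact hn.le

theorem riesz : S_RIESZ := by
  intro s hs0 hs4 C hC η hη
  obtain ⟨r, hr, hrI⟩ := riesz_small hs4 (η := η / (2 * C)) (by positivity)
  have hrs : 0 < r ^ (-s) := Real.rpow_pos_of_pos hr _
  refine ⟨η / (2 * r ^ (-s)), by positivity, fun h hhc hhs hh0 hhC hhI x => ?_⟩
  have hhi : Integrable h := hhc.integrable_of_hasCompactSupport hhs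
  set K : E → ℝ := (Metric.ball (0 : E) r).indicator fun z : E => ‖z‖ ^ (-s) with hK
  have hKi : Integrable K :=
    (integrable_indicator_iff Metric.isOpen_ball.measurableSet).2 (riesz_int hs4 r hr)
  have hKI : ∫ z, K z ≤ η / (2 * C) := by
    rw [hK, integral_indicator Metric.isOpen_ball.measurableSet]; exact hrI
  have hKx : Integrable (fun y => K (x - y)) := hKi.comp_sub_left x
  have hKxI : ∫ y, K (x - y) = ∫ z, K z := integral_sub_left_eq_self K volume x
  have hM : Integrable (fun y => C * K (x - y) + r ^ (-s) * h y) :=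
    (hKx.const_mul C).add (hhi.const_mul _)
  have hpt : ∀ y, ‖x - y‖ ^ (-s) * h y ≤ C * K (x - y) + r ^ (-s) * h y := by
    intro y
    by_cases hy : ‖x - y‖ < r
    · have hmem : x - y ∈ Metric.ball (0 : E) r := by simpa using hy
      have h1 : K (x - y) = ‖x - y‖ ^ (-s) := by rw [hK, indicator_of_mem hmem]
      rw [h1]
      have h2 : 0 ≤ ‖x - y‖ ^ (-s) := Real.rpow_nonneg (norm_nonneg _) _
      have h3 : ‖x - y‖ ^ (-s) * h y ≤ ‖x - y‖ ^ (-s) * C := by gcongr; exact hhC y
      have h4 : 0 ≤ r ^ (-s) * h y := mul_nonneg hrs.le (hh0 y)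
      linarith
    · have hmem : x - y ∉ Metric.ball (0 : E) r := by simpa using hy
      have h1 : K (x - y) = 0 := by rw [hK, indicator_of_notMem hmem]
      rw [h1, mul_zero, zero_add]
      refine mul_le_mul_of_nonneg_right ?_ (hh0 y)
      exact Real.rpow_le_rpow_of_nonpos hr (not_lt.1 hy) (by linarith)
  have h0 : ∀ y, 0 ≤ ‖x - y‖ ^ (-s) * h y := fun y =>
    mul_nonneg (Real.rpow_nonneg (norm_nonneg _) _) (hh0 y)
  have hmeas : AEStronglyMeasurable (fun y => ‖x - y‖ ^ (-s) * h y) volume := by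
    have : Measurable fun y : E => ‖x - y‖ ^ (-s) * h y :=
      (((measurable_const.sub measurable_id).norm).pow_const _).mul hhc.measurable
    exact this.aestronglyMeasurable
  have hint : Integrable (fun y => ‖x - y‖ ^ (-s) * h y) := by
    refine hM.mono' hmeas (Eventually.of_forall fun y => ?_)
    rw [Real.norm_eq_abs, abs_of_nonneg (h0 y)]
    exact hpt y
  refine ⟨hint, ?_⟩
  calc ∫ y, ‖x - y‖ ^ (-s) * h y ≤ ∫ y, (C * K (x - y) + r ^ (-s) * h y) :=
        integral_mono hint hM hpt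
    _ = C * (∫ z, K z) + r ^ (-s) * ∫ y, h y := by
        rw [integral_add (hKx.const_mul C) (hhi.const_mul _), integral_const_mul,
          integral_const_mul, hKxI]
    _ ≤ C * (η / (2 * C)) + r ^ (-s) * (η / (2 * r ^ (-s))) := by gcongr
    _ = η := by field_simp; ring

end Pool.Agent.Q82.QC
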