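import Mathlib
import Pool.Agent.Q82.QC.Stm
import Pool.Agent.Q62.QC_MASS

set_option autoImplicit false

open MeasureTheory Filter Topology Real Set

namespace Pool.Agent.Q82.QC

theorem tail : S_TAIL := by
  intro r hr η hη
  set c : ℝ := r ^ 2 / (1 + r ^ 2) with hc
  have hcpos : 0 < c := by positivity
  refine ⟨min 1 (c ^ 4 * η / (16 * π ^ 2)), by positivity, fun e he hlt => ?_⟩
  have he1 : e < 1 := lt_of_lt_of_le hlt (min_le_left _ _)
  have he2 : e < c ^ 4 * η / (16 * π ^ 2) := lt_of_lt_of_le hlt (min_le_right _ _)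
  obtain ⟨hi1, hI1⟩ := mass 1 one_pos
  obtain ⟨hie, _⟩ := mass e he
  have hb0 : ∀ z : E, 0 ≤ bd 1 z := fun z => by unfold bd; positivity
  have hpt : ∀ z ∈ (Metric.ball (0 : E) r)ᶜ, bd e z ≤ (e / c) ^ 4 * bd 1 z := by
    intro z hz
    have hz1 : r ≤ ‖z‖ := by simpa [Metric.mem_ball, dist_zero_right] using hz
    have hz2 : c * (1 + ‖z‖ ^ 2) ≤ ‖z‖ ^ 2 := by
      rw [hc, div_mul_eq_mul_div, div_le_iff₀ (by positivity)]
      have : r ^ 2 ≤ ‖z‖ ^ 2 := by gcongr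
      nlinarith
    have hz3 : c * (1 + ‖z‖ ^ 2) ≤ e ^ 2 + ‖z‖ ^ 2 := hz2.trans (by nlinarith [sq_nonneg e])
    have hz4 : (c * (1 + ‖z‖ ^ 2)) ^ 4 ≤ (e ^ 2 + ‖z‖ ^ 2) ^ 4 := by gcongr
    unfold bd
    have h5 : (e / c) ^ 4 * (96 * 1 ^ 4 / (1 ^ 2 + ‖z‖ ^ 2) ^ 4) =
        96 * e ^ 4 / (c * (1 + ‖z‖ ^ 2)) ^ 4 := by
      have : c ≠ 0 := hcpos.ne'
      have : (1 : ℝ) + ‖z‖ ^ 2 ≠ 0 := by positivity
      rw [one_pow, one_pow]
      field_simp
    rw [h5]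
    gcongr
  calc ∫ z in (Metric.ball (0 : E) r)ᶜ, bd e z
      ≤ ∫ z in (Metric.ball (0 : E) r)ᶜ, (e / c) ^ 4 * bd 1 z :=
        setIntegral_mono_on hie.integrableOn (hi1.integrableOn.const_mul _)
          Metric.isOpen_ball.measurableSet.compl hpt
    _ = (e / c) ^ 4 * ∫ z in (Metric.ball (0 : E) r)ᶜ, bd 1 z := integral_const_mul _ _
    _ ≤ (e / c) ^ 4 * ∫ z, bd 1 z := by
        refine mul_le_mul_of_nonneg_left ?_ (by positivity)
        exact setIntegral_le_integral hi1 (Eventually.of_forall hb0)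
    _ = (e / c) ^ 4 * (16 * π ^ 2) := by rw [hI1]
    _ ≤ η := by
        rw [div_pow]
        have h6 : e ^ 4 ≤ e := by
          have : e ^ 3 ≤ 1 := pow_le_one₀ he.le he1.le
          nlinarith
        have h7 : e * (16 * π ^ 2) ≤ c ^ 4 * η := by
          rw [lt_div_iff₀ (by positivity)] at he2
          exact he2.le
        rw [div_mul_eq_mul_div, div_le_iff₀ (by positivity)]
        calc e ^ 4 * (16 * π ^ 2) ≤ e * (16 * π ^ 2) := by gcongr
          _ ≤ c ^ 4 * η := h7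
          _ = η * c ^ 4 := by ring

end Pool.Agent.Q82.QC
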