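import Mathlib
import Pool.Agent.Q82.QC.Stm

set_option autoImplicit false

open MeasureTheory Filter Topology Real Set

namespace Pool.Agent.Q82.QC

lemma th_open : IsOpen Om := by
  have h : Continuous fun x : E => x 0 := by fun_prop
  exact (isOpen_lt continuous_const h).inter (isOpen_lt h continuous_const)

lemma th_far {x : E} (hx : x ∈ Om) : 8 ≤ ‖x - pp‖ := by
  have h1 : |(x - pp) 0| ≤ ‖x - pp‖ := by
    have := EuclideanSpace.norm_eq (x - pp)
    have h2 := PiLp.norm_apply_le (x - pp) 0
    simpa using h2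
  have h3 : (x - pp) 0 = x 0 - 10 := by simp [pp]
  rw [h3] at h1
  have h4 : 8 ≤ |x 0 - 10| := by
    rw [abs_of_neg (by linarith [hx.2])]
    linarith [hx.2]
  linarith

lemma th_phi_nonpos {x : E} (hx : x ∈ Om) : phi x ≤ 0 := by
  have h : phi x = -((x 0 - 1) ^ 2 * (x 0 + 2) / 3) := by unfold phi; ring
  rw [h]
  have h1 : 0 ≤ x 0 + 2 := by linarith [hx.1]
  have : 0 ≤ (x 0 - 1) ^ 2 * (x 0 + 2) / 3 := by positivity
  linarith

lemma th_phi_neg {x : E} (hx : x ∈ Om) (h1 : x 0 ≠ 1) : phi x < 0 := by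
  have h : phi x = -((x 0 - 1) ^ 2 * (x 0 + 2) / 3) := by unfold phi; ring
  rw [h]
  have h2 : 0 < x 0 + 2 := by linarith [hx.1]
  have h3 : 0 < (x 0 - 1) ^ 2 := by
    have : x 0 - 1 ≠ 0 := sub_ne_zero.2 h1
    positivity
  have : 0 < (x 0 - 1) ^ 2 * (x 0 + 2) / 3 := by positivity
  linarith

lemma th_dom : IntegrableOn (fun x : E => 2 * (1 / ‖x - pp‖ ^ 7)) Om := by
  have h1 : Integrable (fun x : E => (1 + ‖x‖) ^ (-(7 : ℝ))) :=
    integrable_one_add_norm (by simp [E]; norm_num)
  have h2 : Integrable (fun x : E => (1 + ‖x - pp‖) ^ (-(7 : ℝ))) := h1.comp_sub_right pp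
  have h3 : IntegrableOn (fun x : E => 2 * (2 ^ 7 * (1 + ‖x - pp‖) ^ (-(7 : ℝ)))) Om :=
    ((h2.const_mul _).const_mul _).integrableOn
  refine Integrable.mono' h3 ?_ ?_
  · refine (ContinuousOn.aestronglyMeasurable ?_ th_open.measurableSet)
    refine continuousOn_const.mul (continuousOn_const.div (by fun_prop) fun x hx => ?_)
    have := th_far hx
    positivity
  · refine (ae_restrict_iff' th_open.measurableSet).2 (Eventually.of_forall fun x hx => ?_)
    have h8 := th_far hx
    have hpos : 0 < ‖x - pp‖ := by linarith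
    rw [Real.norm_eq_abs, abs_of_pos (by positivity)]
    refine mul_le_mul_of_nonneg_left ?_ (by norm_num)
    have h4 : (1 + ‖x - pp‖) ^ (-(7 : ℝ)) = 1 / (1 + ‖x - pp‖) ^ 7 := by
      rw [Real.rpow_neg (by positivity), one_div]
      norm_cast
    rw [h4, mul_one_div, div_le_div_iff₀ (by positivity) (by positivity), one_mul, ← mul_pow]
    gcongr
    linarith

lemma th_null : (volume : Measure E) {x : E | x 0 = 1} = 0 := by
  have h := (PiLp.volume_preserving_ofLp (Fin 4)).measure_preimage
    (s := {f : Fin 4 → ℝ | f 0 = 1})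
    ((measurableSet_eq_fun (measurable_pi_apply 0) measurable_const).nullMeasurableSet)
  have h2 : (volume : Measure (Fin 4 → ℝ)) {f : Fin 4 → ℝ | f 0 = 1} = 0 :=
    Measure.pi_hyperplane (fun _ : Fin 4 => (volume : Measure ℝ)) 0 1
  rw [h2] at h
  exact h

lemma th_bound {β : ℝ} (hβ : 0 ≤ β) {x : E} (hx : x ∈ Om) :
    ‖(Real.exp (4 * β * phi x) + Real.exp (-β)) / ‖x - pp‖ ^ 7‖ ≤ 2 * (1 / ‖x - pp‖ ^ 7) := by
  have h8 := th_far hx
  have hpos : 0 < ‖x - pp‖ := by linarith
  rw [Real.norm_eq_abs, abs_of_pos (by positivity), mul_one_div]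
  have h1 : Real.exp (4 * β * phi x) ≤ 1 := by
    rw [Real.exp_le_one_iff]
    have := th_phi_nonpos hx
    nlinarith
  have h2 : Real.exp (-β) ≤ 1 := by rw [Real.exp_le_one_iff]; linarith
  gcongr
  linarith

lemma th_meas (β : ℝ) : AEStronglyMeasurable
    (fun x : E => (Real.exp (4 * β * phi x) + Real.exp (-β)) / ‖x - pp‖ ^ 7)
    (volume.restrict Om) := by
  refine (ContinuousOn.aestronglyMeasurable ?_ th_open.measurableSet)
  refine ContinuousOn.div ?_ (by fun_prop) fun x hx => ?_
  · have : Continuous phi := by unfold phi; fun_prop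
    fun_prop
  · have := th_far hx
    positivity

theorem th : S_TH := by
  constructor
  · intro β hβ
    refine Integrable.mono' th_dom (th_meas β) ?_
    exact (ae_restrict_iff' th_open.measurableSet).2 (Eventually.of_forall fun x hx => th_bound hβ hx)
  · have h0 : ∫ x in Om, (fun _ : E => (0 : ℝ)) x = 0 := by simp
    rw [← h0]
    refine tendsto_integral_filter_of_dominated_convergence (fun x : E => 2 * (1 / ‖x - pp‖ ^ 7))
      (Eventually.of_forall th_meas) ?_ th_dom ?_
    · filter_upwards [eventually_ge_atTop (0 : ℝ)] with β hβ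
      exact (ae_restrict_iff' th_open.measurableSet).2
        (Eventually.of_forall fun x hx => th_bound hβ hx)
    · have hn : ∀ᵐ x : E, x 0 ≠ 1 := by
        rw [ae_iff]
        simpa using th_null
      refine (ae_restrict_iff' th_open.measurableSet).2 ?_
      filter_upwards [hn] with x hx1 hx
      have hneg := th_phi_neg hx hx1
      have h8 := th_far hx
      have e1 : Tendsto (fun β : ℝ => Real.exp (4 * β * phi x)) atTop (𝓝 0) := by
        refine Real.tendsto_exp_atBot.comp ?_
        have : (fun β : ℝ => 4 * β * phi x) = fun β => (4 * phi x) * β := by funext β; ring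
        rw [this]
        exact tendsto_id.const_mul_atTop_of_neg (by linarith)
      have e2 : Tendsto (fun β : ℝ => Real.exp (-β)) atTop (𝓝 0) :=
        Real.tendsto_exp_neg_atTop_nhds_zero
      have := (e1.add e2).div_const (‖x - pp‖ ^ 7)
      simpa using this

end Pool.Agent.Q82.QC
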